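import Mathlib

/-!
# Module Flat.Transv : random transversals have few later conflicts

`σ : Fin N → Fin n` uniformly random. For `a b : Fin N` and `x : Fin n` let
`μ a b x = #{y | lat a b x y} / n ∈ [0, 1]`, so `∑ b, μ a b x ≤ p N` by `hp`. For
`Z a σ = ∑ b ≠ a, [lat a b (σ a) (σ b)]` the second moment of `Z a σ - ∑ b ≠ a, μ a b (σ a)` is
`∑ b ≠ a, E μ (1 - μ) ≤ N / 4` (for `b ≠ b'`, both `≠ a`, the cross terms vanish: sum first over
`σ b`). Chebyshev: `#{σ | Z a σ > (p + η) N} ≤ n^N * (N/4) / (η N)^2`. Sum over `a`: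
`∑ σ #{a | Z a σ > (p + η) N} ≤ n^N / (4 η^2)`; Markov: the number of `σ` with more than `δ N` such
`a` is at most `n^N / (4 η^2 δ N) ≤ n^N / 4`.
-/

namespace PoolFlat

open Finset

private theorem transv_resample {N n : ℕ} (b : Fin N) (g : (Fin N → Fin n) → ℝ) :
    ∑ σ : Fin N → Fin n, ∑ y : Fin n, g (Function.update σ b y) = n * ∑ σ, g σ := by
  have h1 : ∑ x : (Fin N → Fin n) × Fin n, g (Function.update x.1 b x.2) =
      ∑ x : (Fin N → Fin n) × Fin n, g x.1 := by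
    refine Fintype.sum_equiv ⟨fun x => (Function.update x.1 b x.2, x.1 b),
      fun x => (Function.update x.1 b x.2, x.1 b), ?_, ?_⟩ _ _ (fun x => rfl)
    · intro x; simp
    · intro x; simp
  rw [Fintype.sum_prod_type, Fintype.sum_prod_type] at h1
  rw [h1]
  simp [mul_sum]


theorem transv (N n : ℕ) (hn : 1 ≤ n) (lat : Fin N → Fin N → Fin n → Fin n → Prop)
    [∀ a b x y, Decidable (lat a b x y)] (p η δ : ℝ) (hη : 0 < η) (hδ : 0 < δ)
    (hN : 1 / (η ^ 2 * δ) ≤ N)
    (hp : ∀ a x, ∑ b, (#{y | lat a b x y} : ℝ) ≤ p * N * n) :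
    (1 / 2 : ℝ) * (n : ℝ) ^ N ≤
      (#{σ : Fin N → Fin n |
        (#{a : Fin N | (p + η) * N < (#{b : Fin N | b ≠ a ∧ lat a b (σ a) (σ b)} : ℝ)} : ℝ) ≤
          δ * N} : ℝ) := by
  classical
  have hnR : (0 : ℝ) < n := by exact_mod_cast hn
  have hNpos : (0 : ℝ) < N := lt_of_lt_of_le (by positivity) hN
  have hX0 : (0 : ℝ) ≤ (n : ℝ) ^ N := by positivity
  -- the centred indicators
  have hL : ∀ a b x, ∑ y : Fin n, (if lat a b x y then (1 : ℝ) else 0) =
      (#{y | lat a b x y} : ℝ) := fun a b x => by rw [sum_boole]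
  have hpt : ∀ a b x, ∑ y : Fin n, ((if lat a b x y then (1 : ℝ) else 0) -
      (#{y | lat a b x y} : ℝ) / n) = 0 := by
    intro a b x
    rw [sum_sub_distrib, hL]
    simp only [sum_const, card_univ, Fintype.card_fin, nsmul_eq_mul]
    field_simp
    ring
  have hpt2 : ∀ a b x, ∑ y : Fin n, ((if lat a b x y then (1 : ℝ) else 0) -
      (#{y | lat a b x y} : ℝ) / n) ^ 2 ≤ n / 4 := by
    intro a b x
    have h1 : ∀ y : Fin n, ((if lat a b x y then (1 : ℝ) else 0) -
        (#{y | lat a b x y} : ℝ) / n) ^ 2 = (if lat a b x y then (1 : ℝ) else 0) *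
        (1 - 2 * ((#{y | lat a b x y} : ℝ) / n)) + ((#{y | lat a b x y} : ℝ) / n) ^ 2 := by
      intro y
      split_ifs <;> ring
    rw [sum_congr rfl fun y _ => h1 y, sum_add_distrib, ← sum_mul, hL]
    simp only [sum_const, card_univ, Fintype.card_fin, nsmul_eq_mul]
    set m : ℝ := (#{y | lat a b x y} : ℝ)
    have h2 : m * (1 - 2 * (m / n)) + n * (m / n) ^ 2 = n / 4 - (m - n / 2) ^ 2 / n := by
      field_simp
      ring
    rw [h2]
    have h3 : 0 ≤ (m - n / 2) ^ 2 / n := by positivity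
    linarith
  let f : Fin N → Fin N → (Fin N → Fin n) → ℝ := fun a b σ =>
    (if lat a b (σ a) (σ b) then (1 : ℝ) else 0) - (#{y | lat a b (σ a) y} : ℝ) / n
  have hcross : ∀ a b b', b ≠ a → b' ≠ a → b ≠ b' → ∑ σ, f a b σ * f a b' σ = 0 := by
    intro a b b' hb hb' hbb
    have h1 := transv_resample b (fun σ => f a b σ * f a b' σ)
    have h2 : ∑ σ : Fin N → Fin n, ∑ y : Fin n,
        (f a b (Function.update σ b y) * f a b' (Function.update σ b y)) = 0 := by
      refine sum_eq_zero fun σ _ => ?_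
      have h3 : ∀ y : Fin n, f a b (Function.update σ b y) * f a b' (Function.update σ b y) =
          ((if lat a b (σ a) y then (1 : ℝ) else 0) - (#{y | lat a b (σ a) y} : ℝ) / n) *
            f a b' σ := by
        intro y
        simp only [f]
        rw [Function.update_of_ne hb.symm, Function.update_self, Function.update_of_ne hbb.symm]
      rw [sum_congr rfl fun y _ => h3 y, ← sum_mul, hpt, zero_mul]
    rw [h2] at h1
    exact (mul_eq_zero.1 h1.symm).resolve_left hnR.ne'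
  have hdiag : ∀ a b, b ≠ a → ∑ σ, f a b σ * f a b σ ≤ (n : ℝ) ^ N / 4 := by
    intro a b hb
    have h1 := transv_resample b (fun σ => f a b σ * f a b σ)
    have h2 : ∑ σ : Fin N → Fin n, ∑ y : Fin n,
        (f a b (Function.update σ b y) * f a b (Function.update σ b y)) ≤
        ∑ σ : Fin N → Fin n, (n : ℝ) / 4 := by
      refine sum_le_sum fun σ _ => ?_
      have h3 : ∀ y : Fin n, f a b (Function.update σ b y) * f a b (Function.update σ b y) =
          ((if lat a b (σ a) y then (1 : ℝ) else 0) - (#{y | lat a b (σ a) y} : ℝ) / n) ^ 2 := by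
        intro y
        simp only [f]
        rw [Function.update_of_ne hb.symm, Function.update_self, sq]
      rw [sum_congr rfl fun y _ => h3 y]
      exact hpt2 a b (σ a)
    rw [h1] at h2
    simp only [sum_const, card_univ, Fintype.card_fun, Fintype.card_fin, nsmul_eq_mul,
      Nat.cast_pow] at h2
    have h4 : (n : ℝ) * ∑ σ, f a b σ * f a b σ ≤ n * ((n : ℝ) ^ N / 4) := by
      calc (n : ℝ) * ∑ σ, f a b σ * f a b σ ≤ (n : ℝ) ^ N * (n / 4) := h2
        _ = n * ((n : ℝ) ^ N / 4) := by ring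
    exact le_of_mul_le_mul_left h4 hnR
  have hE : ∀ a, ∑ σ, (∑ b ∈ univ.erase a, f a b σ) ^ 2 ≤ N * ((n : ℝ) ^ N / 4) := by
    intro a
    have h1 : ∀ σ : Fin N → Fin n, (∑ b ∈ univ.erase a, f a b σ) ^ 2 =
        ∑ b ∈ univ.erase a, ∑ b' ∈ univ.erase a, f a b σ * f a b' σ := by
      intro σ
      rw [sq, sum_mul_sum]
    rw [sum_congr rfl fun σ _ => h1 σ, sum_comm]
    have h2 : ∀ b ∈ univ.erase a, ∑ σ : Fin N → Fin n, ∑ b' ∈ univ.erase a,
        f a b σ * f a b' σ ≤ (n : ℝ) ^ N / 4 := by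
      intro b hb
      rw [sum_comm, sum_eq_single b]
      · exact hdiag a b (ne_of_mem_erase hb)
      · intro b' hb' hne
        exact hcross a b b' (ne_of_mem_erase hb) (ne_of_mem_erase hb') hne.symm
      · exact fun h => absurd hb h
    refine (sum_le_sum h2).trans ?_
    rw [sum_const, nsmul_eq_mul]
    refine mul_le_mul_of_nonneg_right ?_ (by positivity)
    have : #((univ : Finset (Fin N)).erase a) ≤ N := (card_le_univ _).trans_eq (Fintype.card_fin N)
    exact_mod_cast this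
  have hcheb : ∀ a : Fin N, (#{σ : Fin N → Fin n | (p + η) * N <
      (#{b : Fin N | b ≠ a ∧ lat a b (σ a) (σ b)} : ℝ)} : ℝ) * (η * N) ^ 2 ≤
      N * ((n : ℝ) ^ N / 4) := by
    intro a
    refine le_trans ?_ (hE a)
    have h1 : (#{σ : Fin N → Fin n | (p + η) * N <
        (#{b : Fin N | b ≠ a ∧ lat a b (σ a) (σ b)} : ℝ)} : ℝ) * (η * N) ^ 2 =
        ∑ σ ∈ univ.filter (fun σ : Fin N → Fin n => (p + η) * N <
          (#{b : Fin N | b ≠ a ∧ lat a b (σ a) (σ b)} : ℝ)), (η * N) ^ 2 := by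
      rw [sum_const, nsmul_eq_mul]
    rw [h1]
    refine (sum_le_sum fun σ hσ => ?_).trans
      (sum_le_sum_of_subset_of_nonneg (filter_subset _ _) fun σ _ _ => sq_nonneg _)
    have hσ' := (mem_filter.1 hσ).2
    have h2 : (#{b : Fin N | b ≠ a ∧ lat a b (σ a) (σ b)} : ℝ) =
        ∑ b ∈ univ.erase a, (if lat a b (σ a) (σ b) then (1 : ℝ) else 0) := by
      rw [sum_boole]
      congr 2
      ext b
      simp only [mem_filter, mem_univ, true_and, mem_erase, and_true]
    have h3 : ∑ b ∈ univ.erase a, (#{y | lat a b (σ a) y} : ℝ) / n ≤ p * N := by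
      rw [← sum_div, div_le_iff₀ hnR]
      refine le_trans (sum_le_sum_of_subset_of_nonneg (erase_subset _ _) fun b _ _ => by positivity)
        (hp a (σ a))
    have h4 : ∑ b ∈ univ.erase a, f a b σ = ∑ b ∈ univ.erase a,
        (if lat a b (σ a) (σ b) then (1 : ℝ) else 0) -
        ∑ b ∈ univ.erase a, (#{y | lat a b (σ a) y} : ℝ) / n := by
      rw [← sum_sub_distrib]
    have h5 : η * N ≤ ∑ b ∈ univ.erase a, f a b σ := by
      rw [h4, ← h2]
      linarith
    exact pow_le_pow_left₀ (by positivity) h5 2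
  -- Markov
  have hmark : ∑ σ : Fin N → Fin n, (#{a : Fin N | (p + η) * N <
      (#{b : Fin N | b ≠ a ∧ lat a b (σ a) (σ b)} : ℝ)} : ℝ) * (η ^ 2 * N) ≤
      N * ((n : ℝ) ^ N / 4) := by
    rw [← sum_mul]
    have h1 : ∑ σ : Fin N → Fin n, (#{a : Fin N | (p + η) * N <
        (#{b : Fin N | b ≠ a ∧ lat a b (σ a) (σ b)} : ℝ)} : ℝ) =
        ∑ a : Fin N, (#{σ : Fin N → Fin n | (p + η) * N <
          (#{b : Fin N | b ≠ a ∧ lat a b (σ a) (σ b)} : ℝ)} : ℝ) := by
      simp_rw [← sum_boole]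
      exact sum_comm
    rw [h1, sum_mul]
    have h2 : ∀ a ∈ (univ : Finset (Fin N)), (#{σ : Fin N → Fin n | (p + η) * N <
        (#{b : Fin N | b ≠ a ∧ lat a b (σ a) (σ b)} : ℝ)} : ℝ) * (η ^ 2 * N) ≤
        (n : ℝ) ^ N / 4 := by
      intro a _
      have h3 := hcheb a
      have h4 : (N : ℝ) * ((#{σ : Fin N → Fin n | (p + η) * N <
          (#{b : Fin N | b ≠ a ∧ lat a b (σ a) (σ b)} : ℝ)} : ℝ) * (η ^ 2 * N)) ≤
          N * ((n : ℝ) ^ N / 4) := by
        refine le_trans (le_of_eq ?_) h3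
        ring
      exact le_of_mul_le_mul_left h4 hNpos
    refine (sum_le_sum h2).trans ?_
    rw [sum_const, card_univ, Fintype.card_fin, nsmul_eq_mul]
  have hbad : (#{σ : Fin N → Fin n | ¬ (#{a : Fin N | (p + η) * N <
      (#{b : Fin N | b ≠ a ∧ lat a b (σ a) (σ b)} : ℝ)} : ℝ) ≤ δ * N} : ℝ) * (δ * N) *
      (η ^ 2 * N) ≤ N * ((n : ℝ) ^ N / 4) := by
    refine le_trans ?_ hmark
    rw [← sum_mul]
    refine mul_le_mul_of_nonneg_right ?_ (by positivity)
    have h1 : (#{σ : Fin N → Fin n | ¬ (#{a : Fin N | (p + η) * N <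
        (#{b : Fin N | b ≠ a ∧ lat a b (σ a) (σ b)} : ℝ)} : ℝ) ≤ δ * N} : ℝ) * (δ * N) =
        ∑ σ ∈ univ.filter (fun σ : Fin N → Fin n => ¬ (#{a : Fin N | (p + η) * N <
          (#{b : Fin N | b ≠ a ∧ lat a b (σ a) (σ b)} : ℝ)} : ℝ) ≤ δ * N), (δ * N) := by
      rw [sum_const, nsmul_eq_mul]
    rw [h1]
    refine (sum_le_sum fun σ hσ => ?_).trans
      (sum_le_sum_of_subset_of_nonneg (filter_subset _ _) fun σ _ _ => by positivity)
    exact (not_le.1 (mem_filter.1 hσ).2).le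
  have htot := card_filter_add_card_filter_not (s := (univ : Finset (Fin N → Fin n)))
    (fun σ : Fin N → Fin n => (#{a : Fin N | (p + η) * N <
      (#{b : Fin N | b ≠ a ∧ lat a b (σ a) (σ b)} : ℝ)} : ℝ) ≤ δ * N)
  rw [card_univ, Fintype.card_fun, Fintype.card_fin, Fintype.card_fin] at htot
  have htotR : (#{σ : Fin N → Fin n |
        (#{a : Fin N | (p + η) * N < (#{b : Fin N | b ≠ a ∧ lat a b (σ a) (σ b)} : ℝ)} : ℝ) ≤
          δ * N} : ℝ) + (#{σ : Fin N → Fin n | ¬ (#{a : Fin N | (p + η) * N <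
      (#{b : Fin N | b ≠ a ∧ lat a b (σ a) (σ b)} : ℝ)} : ℝ) ≤ δ * N} : ℝ) = (n : ℝ) ^ N := by
    exact_mod_cast htot
  have h1 : 1 ≤ δ * N * η ^ 2 := by
    rw [div_le_iff₀ (by positivity)] at hN
    linarith
  set Bd : ℝ := (#{σ : Fin N → Fin n | ¬ (#{a : Fin N | (p + η) * N <
      (#{b : Fin N | b ≠ a ∧ lat a b (σ a) (σ b)} : ℝ)} : ℝ) ≤ δ * N} : ℝ) with hBd
  have hBd0 : 0 ≤ Bd := by positivity
  have h2 : Bd ≤ (n : ℝ) ^ N / 4 := by
    have h3 : (N : ℝ) * (Bd * (δ * N * η ^ 2)) ≤ N * ((n : ℝ) ^ N / 4) := by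
      refine le_trans (le_of_eq ?_) hbad
      ring
    have h4 := le_of_mul_le_mul_left h3 hNpos
    nlinarith
  linarith

end PoolFlat
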