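import Pool.Agent.Work.MP_70e905_nt.Flat.Greedy
import Pool.Agent.Work.MP_70e905_nt.Flat.Transv
import Pool.Agent.Work.MP_70e905_nt.Cmb.Box
import Pool.Agent.Work.MP_70e905_nt.Cmb.Blow

/-!
# Module Flat.Core : from few later conflicts to a blown up clique

Let `T` be the set of `σ` of `transv` with `lat a b x y := conf a b x y ∧ key a x ≤ key b y`. For
`σ ∈ T` let `S = {a | #{b ≠ a | lat ..} ≤ (p + η) N}`, `#S ≥ (1 - δ) N`. `greedy` (conflict relation
`conf a b (σ a) (σ b)`, keys `key a (σ a)`, `d = (p + η) N`) gives `X ⊆ S` without conflicts and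
`(1 - δ) N ≤ #X (1 + (p + η) N)`, so `#X ≥ K + 1` by `hnum`; enumerate `K + 1` elements of `X`
increasingly: `c : Fin (K + 1) → Fin N`. So `fun j => σ (c j)` lies in `H c`, the set of
`τ : Fin (K+1) → Fin n` without conflict for `i ≠ j`. `PoolCmb.pigeon` (file Cmb/Turan or Cmb/Blow;
`m = N`, `k = K + 1`, `δ = 1/2`) gives one `c` with `#(H c) ≥ c₁ n^(K+1)`, `c₁ = 1/2 / N^(K+1)`.
Split `H c` by the colours `col (c i) (τ i)` (`q^(K+1)` values): one part has at least
`c₁ / q^(K+1) n^(K+1)` elements, apply `PoolCmb.box L (K+1)` to it (cast as `Finset`).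
(`n ≥ 1` and `N ≥ 1` make `Fin q` nonempty.)
-/

namespace PoolFlat

open Finset

theorem core (K L N q : ℕ) (p η δ : ℝ) (hp0 : 0 ≤ p) (hη : 0 < η) (hδ : 0 < δ)
    (hN : 1 / (η ^ 2 * δ) ≤ N)
    (hnum : (K : ℝ) * (1 + (p + η) * N) < (1 - δ) * N) :
    ∃ n₀ : ℕ, ∀ n : ℕ, n₀ ≤ n →
      ∀ (conf : Fin N → Fin N → Fin n → Fin n → Prop) (key : Fin N → Fin n → ℤ)
        (col : Fin N → Fin n → Fin q)
        [∀ a b x y, Decidable (conf a b x y)],
        (∀ a b x y, conf a b x y → conf b a y x) →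
        (∀ a x, ∑ b, (#{y | conf a b x y ∧ key a x ≤ key b y} : ℝ) ≤ p * N * n) →
        ∃ c : Fin (K + 1) → Fin N, StrictMono c ∧
          ∃ A : Fin (K + 1) → Fin L → Fin n, (∀ i, Function.Injective (A i)) ∧
            (∀ i, ∀ s t, col (c i) (A i s) = col (c i) (A i t)) ∧
            ∀ i j, i ≠ j → ∀ s t, ¬ conf (c i) (c j) (A i s) (A j t) := by
  classical
  have hNpos : (0 : ℝ) < N := lt_of_lt_of_le (by positivity) hN
  have hN1 : 1 ≤ N := by exact_mod_cast hNpos
  rcases Nat.eq_zero_or_pos q with rfl | hq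
  · refine ⟨1, fun n hn conf key col _ _ _ => ?_⟩
    exact (col ⟨0, hN1⟩ ⟨0, hn⟩).elim0
  have hcardpos : (0 : ℝ) < (Fintype.card (Fin (K + 1) → Fin N) : ℝ) := by
    haveI : Nonempty (Fin N) := ⟨⟨0, hN1⟩⟩
    exact_mod_cast Fintype.card_pos
  have hqR : (0 : ℝ) < (q : ℝ) ^ (K + 1) := by
    have : (0 : ℝ) < q := by exact_mod_cast hq
    positivity
  obtain ⟨n₀, hbox⟩ := PoolCmb.box L (K + 1)
    ((1 / 2) / (Fintype.card (Fin (K + 1) → Fin N) : ℝ) / (q : ℝ) ^ (K + 1)) (by positivity)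
  refine ⟨max 1 n₀, fun n hn conf key col _ hsymm hdens => ?_⟩
  have hn1 : 1 ≤ n := (le_max_left _ _).trans hn
  have htr := transv N n hn1 (fun a b x y => conf a b x y ∧ key a x ≤ key b y) p η δ hη hδ hN hdens
  obtain ⟨c, hc, hcH⟩ := PoolCmb.pigeon (m := N) (n := n) (k := K + 1) hn1 hN1 (1 / 2) (by norm_num)
    (univ.filter fun σ : Fin N → Fin n =>
        (#{a : Fin N | (p + η) * N < (#{b : Fin N | b ≠ a ∧
          (conf a b (σ a) (σ b) ∧ key a (σ a) ≤ key b (σ b))} : ℝ)} : ℝ) ≤ δ * N) htr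
    (fun c => univ.filter fun τ : Fin (K + 1) → Fin n =>
      ∀ i j, i ≠ j → ¬ conf (c i) (c j) (τ i) (τ j)) (by
    intro σ hσ
    have hσ' := (mem_filter.1 hσ).2
    have hd0 : 0 ≤ (p + η) * N := by positivity
    obtain ⟨X, hXS, hXc, hXn⟩ := greedy (fun a b : Fin N => conf a b (σ a) (σ b))
      (fun a b h => hsymm _ _ _ _ h) (fun a => key a (σ a)) ((p + η) * N) hd0
      (univ.filter fun a : Fin N => ¬ (p + η) * N < (#{b : Fin N | b ≠ a ∧
          (conf a b (σ a) (σ b) ∧ key a (σ a) ≤ key b (σ b))} : ℝ)) (by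
        intro x hx
        have hx' := not_lt.1 (mem_filter.1 hx).2
        refine le_trans ?_ hx'
        have : #{y ∈ (univ.filter fun a : Fin N => ¬ (p + η) * N < (#{b : Fin N | b ≠ a ∧
          (conf a b (σ a) (σ b) ∧ key a (σ a) ≤ key b (σ b))} : ℝ)) | y ≠ x ∧
            conf x y (σ x) (σ y) ∧ key x (σ x) ≤ key y (σ y)} ≤
            #{b : Fin N | b ≠ x ∧ (conf x b (σ x) (σ b) ∧ key x (σ x) ≤ key b (σ b))} :=
          card_le_card (filter_subset_filter _ (subset_univ _))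
        exact_mod_cast this)
    have hcard : K + 1 ≤ #X := by
      by_contra hlt
      have h1 : (#X : ℝ) ≤ K := by
        have : #X ≤ K := by omega
        exact_mod_cast this
      have h2 : (#X : ℝ) * (1 + (p + η) * N) ≤ K * (1 + (p + η) * N) :=
        mul_le_mul_of_nonneg_right h1 (by linarith)
      have htot := card_filter_add_card_filter_not (s := (univ : Finset (Fin N)))
        (fun a : Fin N => (p + η) * N < (#{b : Fin N | b ≠ a ∧
          (conf a b (σ a) (σ b) ∧ key a (σ a) ≤ key b (σ b))} : ℝ))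
      rw [card_univ, Fintype.card_fin] at htot
      have htotR : (#{a : Fin N | (p + η) * N < (#{b : Fin N | b ≠ a ∧
          (conf a b (σ a) (σ b) ∧ key a (σ a) ≤ key b (σ b))} : ℝ)} : ℝ) +
          (#{a : Fin N | ¬ (p + η) * N < (#{b : Fin N | b ≠ a ∧
          (conf a b (σ a) (σ b) ∧ key a (σ a) ≤ key b (σ b))} : ℝ)} : ℝ) = N := by
        exact_mod_cast htot
      linarith
    obtain ⟨X', hX'X, hX'c⟩ := exists_subset_card_eq hcard
    refine ⟨X'.orderEmbOfFin hX'c, (X'.orderEmbOfFin hX'c).strictMono, ?_⟩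
    rw [mem_filter]
    refine ⟨mem_univ _, fun i j hij => ?_⟩
    exact hXc _ (hX'X (orderEmbOfFin_mem X' hX'c i)) _ (hX'X (orderEmbOfFin_mem X' hX'c j))
      (fun h => hij ((X'.orderEmbOfFin hX'c).injective h)))
  obtain ⟨κ, -, hκ⟩ := exists_le_card_fiber_of_nsmul_le_card_of_maps_to
    (s := univ.filter fun τ : Fin (K + 1) → Fin n =>
      ∀ i j, i ≠ j → ¬ conf (c i) (c j) (τ i) (τ j))
    (t := (univ : Finset (Fin (K + 1) → Fin q)))
    (f := fun τ i => col (c i) (τ i))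
    (b := (1 / 2) / (Fintype.card (Fin (K + 1) → Fin N) : ℝ) / (q : ℝ) ^ (K + 1) *
      (n : ℝ) ^ (K + 1)) (fun _ _ => mem_univ _) ⟨fun _ => ⟨0, hq⟩, mem_univ _⟩ (by
      rw [card_univ, Fintype.card_fun, Fintype.card_fin, Fintype.card_fin, nsmul_eq_mul]
      refine le_trans (le_of_eq ?_) hcH
      push_cast
      rw [Fintype.card_fun, Fintype.card_fin, Fintype.card_fin]
      push_cast
      field_simp)
  obtain ⟨A, hA, hAH⟩ := hbox n ((le_max_right _ _).trans hn) _ hκ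
  refine ⟨c, hc, A, hA, ?_, ?_⟩
  · intro i s t
    have h1 := (mem_filter.1 (hAH fun _ => s)).2
    have h2 := (mem_filter.1 (hAH fun _ => t)).2
    have h3 := congrFun h1 i
    have h4 := congrFun h2 i
    exact h3.trans h4.symm
  · intro i j hij s t
    have h1 := (mem_filter.1 (mem_filter.1 (hAH fun k => if k = i then s else t)).1).2 i j hij
    simpa [hij.symm] using h1

end PoolFlat
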