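import Pool.Agent.Work.MP_70e905_nt.Q4.OmTrunc

/-!
# Module Flat.FlatTrunc : truncation of the singular series, flat sums

From `omTrunc` (weights `M - m`) for `4 M` and `D = 2`: `∑_{m ≤ 2 M} om ≤ 8 (1 + C/2) M` (as
`omD 2 n m ≤ 1`); from `omTrunc` for `2 M`:
`M ∑_{m ≤ M} (om - omD) ≤ ∑_{m ≤ 2 M} (2 M - m) (om - omD) ≤ (C/D) 2 M ∑_{m ≤ 2 M} om`, so
`∑_{m ≤ M} (om - omD) ≤ C' M / D`, and `∑_{m ≤ M} omD ≥ #{m ≤ M even} ≥ M / 4` for `M ≥ 4`.
-/

namespace PoolFlat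

open Finset PoolQ4

private theorem fT_omD_two (n m : ℕ) : omD 2 n m ≤ 1 := by
  unfold omD
  split
  · rw [Finset.prod_eq_one]
    intro p hp
    have h := (Finset.mem_filter.1 hp).2
    omega
  · exact zero_le_one

private theorem fT_one_le (D n m : ℕ) (hm : Even m) : 1 ≤ omD D n m := by
  unfold omD
  rw [if_pos (hm.mul_right n)]
  calc (1 : ℝ) = ∏ p ∈ m.primeFactors.filter (fun p => (2 < p ∧ ¬ p ∣ n) ∧ p ≤ D), (1 : ℝ) := by
        simp
    _ ≤ _ := by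
      refine Finset.prod_le_prod (fun _ _ => zero_le_one) fun p hp => ?_
      have h : 3 ≤ p := (Finset.mem_filter.1 hp).2.1.1
      have h' : (3 : ℝ) ≤ p := by exact_mod_cast h
      rw [le_div_iff₀ (by linarith)]
      linarith

private theorem fT_lower (D n M : ℕ) (hM : 4 ≤ M) :
    (M : ℝ) / 4 ≤ ∑ m ∈ Icc 1 M, omD D n m := by
  have hinj : Set.InjOn (fun j : ℕ => 2 * j) (Icc 1 (M / 2) : Finset ℕ) := fun a _ b _ h => by
    simp only at h
    omega
  have hsub : (Icc 1 (M / 2)).image (fun j : ℕ => 2 * j) ⊆ Icc 1 M := by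
    intro m hm
    obtain ⟨j, hj, rfl⟩ := Finset.mem_image.1 hm
    rw [Finset.mem_Icc] at hj ⊢
    omega
  have h1 : ∑ m ∈ (Icc 1 (M / 2)).image (fun j : ℕ => 2 * j), omD D n m
      ≤ ∑ m ∈ Icc 1 M, omD D n m :=
    Finset.sum_le_sum_of_subset_of_nonneg hsub fun m _ _ => omD_nonneg D n m
  refine le_trans ?_ h1
  rw [Finset.sum_image hinj]
  have h2 : ∑ j ∈ Icc 1 (M / 2), (1 : ℝ) ≤ ∑ j ∈ Icc 1 (M / 2), omD D n (2 * j) :=
    Finset.sum_le_sum fun j _ => fT_one_le D n (2 * j) (even_two_mul j)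
  refine le_trans ?_ h2
  rw [Finset.sum_const, Nat.card_Icc, nsmul_eq_mul, mul_one]
  have h3 : M ≤ 4 * (M / 2 + 1 - 1) := by omega
  have h4 : (M : ℝ) ≤ 4 * ((M / 2 + 1 - 1 : ℕ) : ℝ) := by exact_mod_cast h3
  linarith

theorem flatTrunc : ∃ C : ℝ, 0 < C ∧ ∀ D n M : ℕ, 2 ≤ D → 4 ≤ M →
    ∑ m ∈ Icc 1 M, om n m ≤ (1 + C / D) * ∑ m ∈ Icc 1 M, omD D n m := by
  obtain ⟨C, hC, h⟩ := omTrunc
  refine ⟨64 * C * (1 + C / 2), by positivity, fun D n M hD hM => ?_⟩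
  have hD' : (2 : ℝ) ≤ D := by exact_mod_cast hD
  have hM' : (4 : ℝ) ≤ M := by exact_mod_cast hM
  have hom : ∀ m, 0 ≤ om n m := fun m => (omD_nonneg 2 n m).trans (omD_le_om 2 n m)
  -- step 1
  have h1 : ∑ m ∈ Icc 1 (4 * M), (((4 * M : ℕ) : ℝ) - m) * om n m
      ≤ (1 + C / 2) * (16 * (M : ℝ) ^ 2) := by
    have h2 := h 2 n (4 * M) le_rfl (by omega)
    rw [Nat.cast_ofNat] at h2
    refine h2.trans (mul_le_mul_of_nonneg_left ?_ (by positivity))
    have h3 : ∀ m ∈ Icc 1 (4 * M), (((4 * M : ℕ) : ℝ) - m) * omD 2 n m ≤ 4 * M := by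
      intro m hm
      have h4 : (m : ℝ) ≤ ((4 * M : ℕ) : ℝ) := by exact_mod_cast (Finset.mem_Icc.1 hm).2
      have h5 : (0 : ℝ) ≤ m := Nat.cast_nonneg _
      have h6 := fT_omD_two n m
      have h7 := omD_nonneg 2 n m
      push_cast at h4 ⊢
      nlinarith
    refine (Finset.sum_le_sum h3).trans (le_of_eq ?_)
    rw [Finset.sum_const, Nat.card_Icc, nsmul_eq_mul, Nat.add_sub_cancel]
    push_cast
    ring
  -- step 2
  have h2 : ∑ m ∈ Icc 1 (2 * M), om n m ≤ 8 * (1 + C / 2) * M := by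
    have h3 : 2 * (M : ℝ) * ∑ m ∈ Icc 1 (2 * M), om n m
        ≤ ∑ m ∈ Icc 1 (4 * M), (((4 * M : ℕ) : ℝ) - m) * om n m := by
      rw [Finset.mul_sum]
      refine le_trans (Finset.sum_le_sum (g := fun m => (((4 * M : ℕ) : ℝ) - m) * om n m) ?_)
        (Finset.sum_le_sum_of_subset_of_nonneg (Finset.Icc_subset_Icc_right (by omega)) ?_)
      · intro m hm
        have h4 : (m : ℝ) ≤ ((2 * M : ℕ) : ℝ) := by exact_mod_cast (Finset.mem_Icc.1 hm).2
        push_cast at h4 ⊢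
        exact mul_le_mul_of_nonneg_right (by linarith) (hom m)
      · intro m hm _
        have h4 : (m : ℝ) ≤ ((4 * M : ℕ) : ℝ) := by exact_mod_cast (Finset.mem_Icc.1 hm).2
        exact mul_nonneg (by linarith) (hom m)
    have h4 := h3.trans h1
    have h5 : (0 : ℝ) < 2 * M := by linarith
    refine le_of_mul_le_mul_left (h4.trans (le_of_eq ?_)) h5
    ring
  -- step 3
  have h3 : ∑ m ∈ Icc 1 M, (om n m - omD D n m) ≤ C / D * (16 * (1 + C / 2)) * M := by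
    have h4 : (M : ℝ) * ∑ m ∈ Icc 1 M, (om n m - omD D n m)
        ≤ ∑ m ∈ Icc 1 (2 * M), (((2 * M : ℕ) : ℝ) - m) * (om n m - omD D n m) := by
      rw [Finset.mul_sum]
      refine le_trans (Finset.sum_le_sum
        (g := fun m => (((2 * M : ℕ) : ℝ) - m) * (om n m - omD D n m)) ?_)
        (Finset.sum_le_sum_of_subset_of_nonneg (Finset.Icc_subset_Icc_right (by omega)) ?_)
      · intro m hm
        have h4 : (m : ℝ) ≤ M := by exact_mod_cast (Finset.mem_Icc.1 hm).2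
        have h5 := omD_le_om D n m
        push_cast
        exact mul_le_mul_of_nonneg_right (by linarith) (by linarith)
      · intro m hm _
        have h4 : (m : ℝ) ≤ ((2 * M : ℕ) : ℝ) := by exact_mod_cast (Finset.mem_Icc.1 hm).2
        have h5 := omD_le_om D n m
        exact mul_nonneg (by linarith) (by linarith)
    have h5 := h D n (2 * M) hD (by omega)
    have h6 : ∑ m ∈ Icc 1 (2 * M), (((2 * M : ℕ) : ℝ) - m) * (om n m - omD D n m)
        ≤ C / D * ∑ m ∈ Icc 1 (2 * M), (((2 * M : ℕ) : ℝ) - m) * omD D n m := by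
      simp only [mul_sub, Finset.sum_sub_distrib]
      linarith
    have h7 : ∑ m ∈ Icc 1 (2 * M), (((2 * M : ℕ) : ℝ) - m) * omD D n m
        ≤ 2 * M * ∑ m ∈ Icc 1 (2 * M), om n m := by
      rw [Finset.mul_sum]
      refine Finset.sum_le_sum fun m hm => ?_
      have h4 : (m : ℝ) ≤ ((2 * M : ℕ) : ℝ) := by exact_mod_cast (Finset.mem_Icc.1 hm).2
      have h8 : (0 : ℝ) ≤ m := Nat.cast_nonneg _
      push_cast at h4 ⊢
      exact mul_le_mul (by linarith) (omD_le_om D n m) (omD_nonneg D n m) (by linarith)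
    have h8 : 2 * (M : ℝ) * ∑ m ∈ Icc 1 (2 * M), om n m ≤ 2 * M * (8 * (1 + C / 2) * M) :=
      mul_le_mul_of_nonneg_left h2 (by linarith)
    have h9 : C / D * ∑ m ∈ Icc 1 (2 * M), (((2 * M : ℕ) : ℝ) - m) * omD D n m
        ≤ C / D * (2 * M * (8 * (1 + C / 2) * M)) :=
      mul_le_mul_of_nonneg_left (h7.trans h8) (by positivity)
    have h10 : (0 : ℝ) < M := by linarith
    refine le_of_mul_le_mul_left ((h4.trans (h6.trans h9)).trans (le_of_eq ?_)) h10
    ring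
  have h4 := fT_lower D n M hM
  rw [Finset.sum_sub_distrib] at h3
  have h5 : C / D * (16 * (1 + C / 2)) * M
      ≤ 64 * C * (1 + C / 2) / D * ∑ m ∈ Icc 1 M, omD D n m := by
    calc C / D * (16 * (1 + C / 2)) * M = 64 * C * (1 + C / 2) / D * (M / 4) := by ring
      _ ≤ _ := mul_le_mul_of_nonneg_left h4 (by positivity)
  linarith

end PoolFlat
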