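import Pool.Agent.Work.MP_70e905_nt.Flat.FlatWt
import Pool.Agent.Work.MP_70e905_nt.Flat.FlatTrunc
import Pool.Agent.Work.MP_70e905_nt.Q4.HlOm
import Pool.Agent.Work.MP_70e905_nt.Q4.WtOm
import Pool.Agent.Work.MP_70e905_nt.Q4.Clus

/-!
# Module Flat.FlatMain : a quarter of the multiples (full singular series)

`flat_quarter` : from `flat_wt` with `ε/3`, `wt_eq_omD`, `flatTrunc` (`D ≥ 3 C/ε`), `omD_le_om`, `hl_eq_om`
as in `Q4/Quarter.lean`. `flat_multiples` : `CluF K L D 1 n M P` with `P m := DiffPrimes (3 M n) (m n)`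
follows from `ClusterPlus K` with `W = primorial D`, `D ≥ D₁`, `A₀ = C = 1`, `x = M n`, `a = 1`, `b = h n`
(compare `Q4/Multiples.lean`).
-/

namespace PoolFlat

open Finset Classical PoolQ4

private theorem flatMain_primorial_pos (D : ℕ) : 0 < primorial D := by
  unfold primorial
  exact Finset.prod_pos fun p hp => (mem_filter.1 hp).2.pos

private theorem flatMain_primorial_dvd {D₁ D : ℕ} (h : D₁ ≤ D) : primorial D₁ ∣ primorial D := by
  unfold primorial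
  refine Finset.prod_dvd_prod_of_subset _ _ _ ?_
  intro p hp
  simp only [mem_filter, mem_range] at hp ⊢
  exact ⟨by omega, hp.2⟩

theorem flat_quarter (K L : ℕ) (hK : 1 ≤ K) (ε : ℝ) (hε : 0 < ε) :
    ∃ D₂ : ℕ, ∀ D : ℕ, D₂ ≤ D → ∃ M₀ : ℕ, ∀ n M : ℕ, 1 ≤ n → M₀ ≤ M →
      ∀ (P : ℕ → Prop), CluF K L D 1 n M P →
      (1 / (K : ℝ) - ε) * ∑ m ∈ Icc 1 M, hl (m * n) ≤ ∑ m ∈ (Icc 1 M).filter P, hl (m * n) := by
  obtain ⟨C, hC, htr⟩ := flatTrunc
  refine ⟨max 2 ⌈3 * C / ε⌉₊, fun D hD => ?_⟩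
  have hD2 : 2 ≤ D := (le_max_left _ _).trans hD
  have hD3 : 3 * C / ε ≤ D := (Nat.le_ceil _).trans (by
    exact_mod_cast (le_max_right _ _).trans hD)
  have hDpos : (0 : ℝ) < D := by
    have : 0 < D := by omega
    exact_mod_cast this
  obtain ⟨M₀, hM₀⟩ := flat_wt K L 1 hK le_rfl (ε / 3) (by positivity) D
  refine ⟨max M₀ 4, fun n M hn hM P hclu => ?_⟩
  have hM1 : M₀ ≤ M := (le_max_left _ _).trans hM
  have hM2 : 4 ≤ M := (le_max_right _ _).trans hM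
  have hmain := hM₀ M n hM1 P hclu
  obtain ⟨C₁, hC₁, hhl⟩ := hl_eq_om n hn
  obtain ⟨C₂, hC₂, hwt⟩ := wt_eq_omD D n hD2 hn
  have htr' := htr D n M hD2 hM2
  set S : ℝ := ∑ m ∈ Icc 1 M, om n m with hS
  set SD : ℝ := ∑ m ∈ Icc 1 M, omD D n m with hSD
  set SP : ℝ := ∑ m ∈ (Icc 1 M).filter P, om n m with hSP
  set SDP : ℝ := ∑ m ∈ (Icc 1 M).filter P, omD D n m with hSDP
  have e1 : ∑ m ∈ Icc 1 M, hl (m * n) = C₁ * S := by
    rw [hS, mul_sum]
    refine sum_congr rfl fun m hm => ?_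
    rw [mem_Icc] at hm
    rw [hhl m hm.1]
  have e2 : ∑ m ∈ (Icc 1 M).filter P, hl (m * n) = C₁ * SP := by
    rw [hSP, mul_sum]
    refine sum_congr rfl fun m hm => ?_
    rw [mem_filter, mem_Icc] at hm
    rw [hhl m hm.1.1]
  have e3 : ∑ m ∈ Icc 1 M, (wt D n m : ℝ) = C₂ * SD := by
    rw [hSD, mul_sum]
    refine sum_congr rfl fun m hm => ?_
    rw [mem_Icc] at hm
    rw [hwt m hm.1]
  have e4 : ∑ m ∈ (Icc 1 M).filter P, (wt D n m : ℝ) = C₂ * SDP := by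
    rw [hSDP, mul_sum]
    refine sum_congr rfl fun m hm => ?_
    rw [mem_filter, mem_Icc] at hm
    rw [hwt m hm.1.1]
  rw [e3, e4] at hmain
  have h1 : (1 / (K : ℝ) - ε / 3) * SD ≤ SDP := by
    refine le_of_mul_le_mul_left ?_ hC₂
    calc C₂ * ((1 / (K : ℝ) - ε / 3) * SD) = (1 / (K : ℝ) - ε / 3) * (C₂ * SD) := by ring
      _ ≤ C₂ * SDP := hmain
  have h2 : SDP ≤ SP := by
    refine sum_le_sum fun m hm => ?_
    exact omD_le_om D n m
  have h3 : 0 ≤ SD := sum_nonneg fun m hm => omD_nonneg D n m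
  have h4 : 0 ≤ SDP := sum_nonneg fun m hm => omD_nonneg D n m
  have h5 : 0 ≤ S := sum_nonneg fun m hm => (omD_nonneg D n m).trans (omD_le_om D n m)
  have h6 : S ≤ (1 + ε / 3) * SD := by
    refine htr'.trans (mul_le_mul_of_nonneg_right ?_ h3)
    have : C / D ≤ ε / 3 := by
      rw [div_le_iff₀ hDpos]
      rw [div_le_iff₀ hε] at hD3
      nlinarith
    linarith
  rw [e1, e2]
  have hK1 : 1 / (K : ℝ) ≤ 1 := by
    have : (1 : ℝ) ≤ K := by exact_mod_cast hK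
    rw [div_le_one (by linarith)]
    exact this
  suffices h : (1 / (K : ℝ) - ε) * S ≤ SP by
    calc (1 / (K : ℝ) - ε) * (C₁ * S) = C₁ * ((1 / (K : ℝ) - ε) * S) := by ring
      _ ≤ C₁ * SP := mul_le_mul_of_nonneg_left h hC₁.le
  rcases le_or_gt (1 / (K : ℝ) - ε) 0 with h7 | h7
  · exact (mul_nonpos_of_nonpos_of_nonneg h7 h5).trans (h4.trans h2)
  · calc (1 / (K : ℝ) - ε) * S ≤ (1 / (K : ℝ) - ε) * ((1 + ε / 3) * SD) :=
          mul_le_mul_of_nonneg_left h6 h7.le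
      _ = ((1 / (K : ℝ) - ε) * (1 + ε / 3)) * SD := by ring
      _ ≤ (1 / (K : ℝ) - ε / 3) * SD := by
          refine mul_le_mul_of_nonneg_right ?_ h3
          nlinarith
      _ ≤ SDP := h1
      _ ≤ SP := h2

theorem flat_multiples (K : ℕ) (hK : 1 ≤ K) (HC : ClusterPlus K) (ε : ℝ) (hε : 0 < ε) :
    ∃ M₀ : ℕ, ∀ n M : ℕ, 1 ≤ n → M₀ ≤ M →
      (1 / (K : ℝ) - ε) * ∑ m ∈ Icc 1 M, hl (m * n) ≤
        ∑ m ∈ (Icc 1 M).filter (fun m => DiffPrimes (3 * M * n) (m * n)), hl (m * n) := by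
  obtain ⟨L, D₁, hL, HC⟩ := HC
  obtain ⟨D₂, hQ⟩ := flat_quarter K L hK ε hε
  obtain ⟨X₀, hX⟩ := HC (primorial (max D₁ D₂)) 1 1 (flatMain_primorial_pos _)
    (flatMain_primorial_dvd (le_max_left _ _))
  obtain ⟨M₀, hM₀⟩ := hQ (max D₁ D₂) (le_max_right _ _)
  refine ⟨max M₀ X₀, fun n M hn hM => ?_⟩
  refine hM₀ n M hn (le_trans (le_max_left _ _) hM)
    (fun m => DiffPrimes (3 * M * n) (m * n)) ?_
  intro v h hinj hh hcop _
  have hMX : X₀ ≤ M * n := by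
    have h1 : X₀ ≤ M := le_trans (le_max_right _ _) hM
    nlinarith
  obtain ⟨z, hz1, hz2, -, s, t, hst, hs, ht⟩ := hX (M * n) v (fun _ => 1) (fun i => h i * n) hMX
    (fun _ => ⟨le_rfl, le_rfl⟩)
    (fun _ p hp hd => absurd (Nat.dvd_one.1 hd) hp.one_lt.ne')
    (fun i => by
      have := (hh i).le
      nlinarith)
    (fun i => by simpa using hcop i)
    (fun i j hij hEq => by
      have h1 : h j * n = h i * n := by simpa using hEq
      exact hij (hinj (Nat.eq_of_mul_eq_mul_right (by omega) h1)).symm)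
  refine ⟨s, t, hst, ?_⟩
  simp only [one_mul] at hs ht
  have hsM := Nat.mul_le_mul_right n (hh s).le
  have htM := Nat.mul_le_mul_right n (hh t).le
  show DiffPrimes (3 * M * n) (Nat.dist (h s) (h t) * n)
  rcases le_total (h s) (h t) with hle | hle
  · refine ⟨z + h t * n, z + h s * n, ht, hs, ?_, ?_⟩
    · calc z + h t * n ≤ 2 * (M * n) + M * n := by omega
        _ = 3 * M * n := by ring
    · rw [Nat.dist_eq_sub_of_le hle, Nat.sub_mul]
      have := Nat.mul_le_mul_right n hle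
      omega
  · refine ⟨z + h s * n, z + h t * n, hs, ht, ?_, ?_⟩
    · calc z + h s * n ≤ 2 * (M * n) + M * n := by omega
        _ = 3 * M * n := by ring
    · rw [Nat.dist_eq_sub_of_le_right hle, Nat.sub_mul]
      have := Nat.mul_le_mul_right n hle
      omega

end PoolFlat
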