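import Pool.Agent.Work.MP_70e905_nt.Flat.NDefs

/-!
# Module Flat.Later : counting later conflicts

Positions `r + W x`, `x < n`, of the level `r < W`. Fix `(r, x)` and a level `s < W`. The map
`y ↦ t = (s + W y) - (r + W x)` is injective, `t ≡ s - r` mod `W`. If `(s, y)` is in conflict with
`(r, x)` (same position, or distance `≤ M` in `P`) and its key is not smaller, then `t = 0`, or
`t + τs - τr = 0`, or `t` is counted on the right hand side. So the number of `y` is at most the first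
term plus `2`.
-/

namespace PoolFlat

open Finset

theorem later_count (W M n : ℕ) (hW : 1 ≤ W) (P : ℕ → Prop) [DecidablePred P] (r s : ℕ)
    (hr : r < W) (hs : s < W) (τr τs : ℤ) (x : Fin n) :
    #{y : Fin n | (r + W * x = s + W * (y : ℕ) ∨
          (Nat.dist (r + W * x) (s + W * (y : ℕ)) ≤ M ∧ P (Nat.dist (r + W * x) (s + W * (y : ℕ))))) ∧
        ((r + W * (x : ℕ) : ℕ) : ℤ) + τr ≤ ((s + W * (y : ℕ) : ℕ) : ℤ) + τs} ≤
      #{t ∈ (Icc (-(M : ℤ)) M).filter (fun t => 0 < t + τs - τr) |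
        (t ≠ 0 ∧ P t.natAbs) ∧ (W : ℤ) ∣ t - ((s : ℤ) - r)} + 2 := by
  classical
  set f : Fin n → ℤ := fun y => ((s : ℤ) + W * (y : ℕ)) - ((r : ℤ) + W * (x : ℕ)) with hf
  have hinj : Function.Injective f := by
    intro y z h
    simp only [hf] at h
    have hW' : (W : ℤ) ≠ 0 := by exact_mod_cast (by omega : W ≠ 0)
    have h2 : (W : ℤ) * ((y : ℕ) : ℤ) = W * ((z : ℕ) : ℤ) := by linarith
    have h3 := mul_left_cancel₀ hW' h2
    exact Fin.ext (by exact_mod_cast h3)
  set A := ({y : Fin n | (r + W * x = s + W * (y : ℕ) ∨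
          (Nat.dist (r + W * x) (s + W * (y : ℕ)) ≤ M ∧ P (Nat.dist (r + W * x) (s + W * (y : ℕ))))) ∧
        ((r + W * (x : ℕ) : ℕ) : ℤ) + τr ≤ ((s + W * (y : ℕ) : ℕ) : ℤ) + τs} : Finset (Fin n)) with hA
  set B := ({t ∈ (Icc (-(M : ℤ)) M).filter (fun t => 0 < t + τs - τr) |
        (t ≠ 0 ∧ P t.natAbs) ∧ (W : ℤ) ∣ t - ((s : ℤ) - r)} : Finset ℤ) with hB
  have hsub : A.image f ⊆ B ∪ {0, τr - τs} := by
    intro t ht
    rw [mem_image] at ht
    obtain ⟨y, hy, rfl⟩ := ht
    rw [hA, mem_filter] at hy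
    obtain ⟨-, hc, hk⟩ := hy
    have hk' : 0 ≤ f y + τs - τr := by
      push_cast at hk
      simp only [hf]
      linarith
    rw [mem_union]
    by_cases h0 : f y = 0
    · right; simp [h0]
    by_cases h1 : f y = τr - τs
    · right; simp [h1]
    left
    have hlt : 0 < f y + τs - τr := by
      rcases hk'.lt_or_eq with h | h
      · exact h
      · exact absurd (by linarith) h1
    have hdist : Nat.dist (r + W * x) (s + W * (y : ℕ)) = (f y).natAbs := by
      have e1 : f y = ((s + W * (y : ℕ) : ℕ) : ℤ) - ((r + W * (x : ℕ) : ℕ) : ℤ) := by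
        simp only [hf]; push_cast; ring
      rw [e1]
      generalize s + W * (y : ℕ) = a
      generalize r + W * (x : ℕ) = b
      unfold Nat.dist
      omega
    rcases hc with hc | ⟨hc1, hc2⟩
    · exfalso
      apply h0
      have e1 : f y = ((s + W * (y : ℕ) : ℕ) : ℤ) - ((r + W * (x : ℕ) : ℕ) : ℤ) := by
        simp only [hf]; push_cast; ring
      rw [e1, hc]; ring
    · rw [hdist] at hc1 hc2
      rw [hB, mem_filter, mem_filter, mem_Icc]
      refine ⟨⟨⟨by omega, by omega⟩, hlt⟩, ⟨h0, hc2⟩, ?_⟩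
      refine ⟨((y : ℕ) : ℤ) - ((x : ℕ) : ℤ), ?_⟩
      simp only [hf]; ring
  calc #A = #(A.image f) := (card_image_of_injective _ hinj).symm
    _ ≤ #(B ∪ {0, τr - τs}) := card_le_card hsub
    _ ≤ #B + #({0, τr - τs} : Finset ℤ) := card_union_le _ _
    _ ≤ #B + 2 := by gcongr; exact card_le_two

end PoolFlat
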