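import Mathlib

/-!
# Module Flat.Reg : regular weights

Among all `k : R → ℕ` with `∑ k = S := K₀ * card R` (a nonempty finite set: it contains the constant
`K₀`) choose one minimising `Q(k) = ∑ ρ, ∑ σ, k ρ * k σ * q ρ σ`. Let `0 < k ρ` and `σ ≠ ρ`; moving one
unit from `ρ` to `σ` gives `0 ≤ Q(k') - Q(k) = 2 ((q k) σ - (q k) ρ) + q σ σ + q ρ ρ - 2 q ρ σ`, where
`(q k) ρ = ∑ σ, k σ * q ρ σ`; hence `(q k) ρ ≤ (q k) σ + B`. Multiply by `k σ` and sum over `σ`:
`S (q k) ρ ≤ Q(k) + S B`, and `Q(k) ≤ Q(constant K₀) = K₀^2 ∑ ρ, ∑ σ, q ρ σ`. (Work in `ℤ` for the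
difference.)
-/

namespace PoolFlat

open Finset

/-- the quadratic form over `ℤ` -/
private def regQ {R : Type} [Fintype R] (q : R → R → ℕ) (x : R → ℤ) : ℤ :=
  ∑ α, ∑ β, x α * x β * q α β

private theorem regQ_move {R : Type} [Fintype R] [DecidableEq R] (q : R → R → ℕ)
    (hq : ∀ ρ σ, q ρ σ = q σ ρ) (x : R → ℤ) (ρ σ : R) :
    regQ q (fun α => x α + ((if α = σ then 1 else 0) - if α = ρ then 1 else 0))
      = regQ q x + 2 * (∑ β, x β * q σ β - ∑ β, x β * q ρ β) + q σ σ + q ρ ρ - 2 * q ρ σ := by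
  have hd : ∀ f : R → ℤ, ∑ β, ((if β = σ then (1 : ℤ) else 0) - if β = ρ then 1 else 0) * f β
      = f σ - f ρ := by
    intro f
    simp [sub_mul, Finset.sum_sub_distrib]
  unfold regQ
  have h1 : ∀ α β, (x α + ((if α = σ then (1 : ℤ) else 0) - if α = ρ then 1 else 0)) *
      (x β + ((if β = σ then (1 : ℤ) else 0) - if β = ρ then 1 else 0)) * (q α β : ℤ)
      = x α * x β * q α β
        + x α * (((if β = σ then (1 : ℤ) else 0) - if β = ρ then 1 else 0) * (q α β : ℤ))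
        + ((if α = σ then (1 : ℤ) else 0) - if α = ρ then 1 else 0) * (x β * (q α β : ℤ))
        + ((if α = σ then (1 : ℤ) else 0) - if α = ρ then 1 else 0) *
          (((if β = σ then (1 : ℤ) else 0) - if β = ρ then 1 else 0) * (q α β : ℤ)) := by
    intro α β; ring
  simp only [h1, Finset.sum_add_distrib, ← Finset.mul_sum]
  rw [hd, hd]
  simp only [hd]
  have h2 : ∀ σ', ∑ α, x α * (q α σ' : ℤ) = ∑ β, x β * (q σ' β : ℤ) := by
    intro σ'
    refine Finset.sum_congr rfl fun α _ => ?_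
    rw [hq α σ']
  simp only [mul_sub, Finset.sum_sub_distrib, h2]
  rw [hq σ ρ]
  ring

theorem regular_weights {R : Type} [Fintype R] [DecidableEq R] (q : R → R → ℕ)
    (hq : ∀ ρ σ, q ρ σ = q σ ρ) (B : ℕ) (hB : ∀ ρ σ, q ρ σ ≤ B) (K₀ : ℕ) (hK : 1 ≤ K₀) :
    ∃ k : R → ℕ, ∑ ρ, k ρ = K₀ * Fintype.card R ∧
      ∀ ρ, 0 < k ρ →
        (K₀ * Fintype.card R) * ∑ σ, k σ * q ρ σ ≤
          K₀ ^ 2 * ∑ ρ, ∑ σ, q ρ σ + (K₀ * Fintype.card R) * B := by
  let Q : (R → ℕ) → ℕ := fun k => ∑ α, ∑ β, k α * k β * q α β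
  have hQZ : ∀ k, ((Q k : ℕ) : ℤ) = regQ q (fun α => (k α : ℤ)) := by
    intro k
    simp only [Q, regQ, Nat.cast_sum, Nat.cast_mul]
  have hne : (fun _ : R => K₀) ∈ {k : R → ℕ | ∑ ρ, k ρ = K₀ * Fintype.card R} := by
    simp [mul_comm]
  obtain ⟨k, hk, hmin⟩ : ∃ k : R → ℕ, ∑ ρ, k ρ = K₀ * Fintype.card R ∧
      ∀ k' : R → ℕ, ∑ ρ, k' ρ = K₀ * Fintype.card R → Q k ≤ Q k' :=
    ⟨Function.argminOn Q _ ⟨_, hne⟩, Function.argminOn_mem Q _ ⟨_, hne⟩,
      fun k' hk' => Function.argminOn_le Q _ hk'⟩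
  refine ⟨k, hk, fun ρ hρ => ?_⟩
  have hstep : ∀ σ, ∑ β, k β * q ρ β ≤ ∑ β, k β * q σ β + B := by
    intro σ
    by_cases hσ : σ = ρ
    · subst hσ; omega
    · set k' : R → ℕ := fun α => if α = σ then k σ + 1 else if α = ρ then k ρ - 1 else k α with hk'
      have hk'Z : ∀ α, (k' α : ℤ) = (k α : ℤ) + ((if α = σ then 1 else 0) -
          if α = ρ then 1 else 0) := by
        intro α
        rw [hk']
        by_cases h1 : α = σ
        · subst h1
          simp [hσ]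
        · by_cases h2 : α = ρ
          · subst h2
            simp only [if_neg h1, if_pos rfl]
            push_cast [Nat.cast_sub hρ]
            omega
          · simp [h1, h2]
      have hsum : ∑ α, k' α = K₀ * Fintype.card R := by
        have h1 : ∑ α, (k' α : ℤ) = ∑ α, (k α : ℤ) := by
          simp only [hk'Z, Finset.sum_add_distrib, Finset.sum_sub_distrib]
          simp
        rw [← hk]
        exact_mod_cast h1
      have h2 := hmin k' hsum
      have h3 : ((Q k : ℕ) : ℤ) ≤ ((Q k' : ℕ) : ℤ) := by exact_mod_cast h2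
      rw [hQZ, hQZ] at h3
      simp only [hk'Z] at h3
      rw [regQ_move q hq (fun α => (k α : ℤ)) ρ σ] at h3
      have h4 : (q σ σ : ℤ) ≤ B := by exact_mod_cast hB σ σ
      have h5 : (q ρ ρ : ℤ) ≤ B := by exact_mod_cast hB ρ ρ
      have h6 : (0 : ℤ) ≤ (q ρ σ : ℤ) := by positivity
      have h7 : (∑ β, (k β : ℤ) * (q ρ β : ℤ)) ≤ (∑ β, (k β : ℤ) * (q σ β : ℤ)) + B := by
        linarith
      exact_mod_cast h7
  have h1 : (K₀ * Fintype.card R) * ∑ σ, k σ * q ρ σ ≤ ∑ σ, k σ * (∑ β, k β * q σ β + B) := by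
    rw [← hk, Finset.sum_mul]
    exact Finset.sum_le_sum fun σ _ => Nat.mul_le_mul_left _ (hstep σ)
  refine h1.trans ?_
  have h2 : ∑ σ, k σ * (∑ β, k β * q σ β + B) = Q k + (K₀ * Fintype.card R) * B := by
    simp only [mul_add, Finset.sum_add_distrib, Q]
    rw [← Finset.sum_mul, hk]
    congr 1
    refine Finset.sum_congr rfl fun α _ => ?_
    rw [Finset.mul_sum]
    refine Finset.sum_congr rfl fun β _ => ?_
    ring
  rw [h2]
  refine Nat.add_le_add_right ?_ _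
  refine (hmin _ hne).trans (le_of_eq ?_)
  simp only [Q, Finset.mul_sum]
  refine Finset.sum_congr rfl fun α _ => Finset.sum_congr rfl fun β _ => ?_
  ring

end PoolFlat
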