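import Mathlib

/-!
# Module Flat.Shift : balanced shifts

`c ρ σ t` is the weight of the conflict between a vertex of level `ρ` at position `s` and a vertex of
level `σ` at position `s + t`. There are integers `τ ρ` such that in the order of the keys
`position + τ (level)` every vertex has at most as much conflict weight with strictly later vertices
as with the other ones.

Proof. Choose `τ : R → ℤ` minimising the natural number
`Ψ(τ) = ∑ ρ, ∑ σ, ∑ t ∈ Icc (-M) M, c ρ σ t * |t + τ σ - τ ρ|` (`Int.natAbs`; a function to `ℕ` has a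
minimiser, e.g. `Function.argmin` or `Nat.find` on its range). Fix `ρ` and let `τ'` be `τ` with `τ ρ`
replaced by `τ ρ + 1`. The terms with both levels different from `ρ` and the terms `(ρ, ρ)` do not
change. For `σ ≠ ρ` the term `(ρ, σ, t)` changes by `-1` if `0 < t + τ σ - τ ρ` and by `+1` if
`t + τ σ - τ ρ ≤ 0` (times `c ρ σ t`), and by `hsymm` the terms `(σ, ρ, -t)` give the same change again.
So `0 ≤ Ψ(τ') - Ψ(τ)` says that the sum over `σ ≠ ρ` and `0 < t + τ σ - τ ρ` is at most the one over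
`σ ≠ ρ` and `t + τ σ - τ ρ ≤ 0`. For `σ = ρ`: `∑_{t > 0} c ρ ρ t = ∑_{t < 0} c ρ ρ t` by `hsymm`.
-/

namespace PoolFlat

open Finset

private def shSg (x : ℤ) : ℤ := if 0 < x then -1 else 1

private theorem shift_neg_sum (M : ℕ) (f : ℤ → ℤ) :
    ∑ t ∈ Icc (-(M : ℤ)) M, f (-t) = ∑ t ∈ Icc (-(M : ℤ)) M, f t := by
  refine Finset.sum_nbij' (fun t => -t) (fun t => -t) ?_ ?_ ?_ ?_ ?_
  · intro t ht; rw [mem_Icc] at ht ⊢; omega
  · intro t ht; rw [mem_Icc] at ht ⊢; omega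
  · intro t _; simp
  · intro t _; simp
  · intro t _; rfl

theorem balanced_shift {R : Type} [Fintype R] [DecidableEq R] (M : ℕ) (c : R → R → ℤ → ℕ)
    (hsymm : ∀ ρ σ t, c ρ σ t = c σ ρ (-t)) :
    ∃ τ : R → ℤ, ∀ ρ,
      ∑ σ, ∑ t ∈ (Icc (-(M : ℤ)) M).filter (fun t => 0 < t + τ σ - τ ρ), c ρ σ t ≤
        ∑ σ, ∑ t ∈ (Icc (-(M : ℤ)) M).filter (fun t => t + τ σ - τ ρ ≤ 0), c ρ σ t := by
  let Ψ : (R → ℤ) → ℕ := fun τ => ∑ α, ∑ β, ∑ t ∈ Icc (-(M : ℤ)) M,
    c α β t * (t + τ β - τ α).natAbs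
  obtain ⟨τ, hτ⟩ : ∃ τ, ∀ τ', Ψ τ ≤ Ψ τ' :=
    ⟨Function.argmin Ψ, fun τ' => Function.argmin_le Ψ τ'⟩
  refine ⟨τ, fun ρ => ?_⟩
  set τ' : R → ℤ := Function.update τ ρ (τ ρ + 1) with hτ'
  have hρ : τ' ρ = τ ρ + 1 := by rw [hτ', Function.update_self]
  have hne : ∀ σ, σ ≠ ρ → τ' σ = τ σ := fun σ h => by rw [hτ', Function.update_of_ne h]
  have hcast : ∀ θ : R → ℤ, ((Ψ θ : ℕ) : ℤ) = ∑ α, ∑ β, ∑ t ∈ Icc (-(M : ℤ)) M,
      (c α β t : ℤ) * |t + θ β - θ α| := by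
    intro θ
    simp only [Ψ, Nat.cast_sum, Nat.cast_mul, Int.natCast_natAbs]
  have h0 : (0 : ℤ) ≤ ∑ α, ∑ β, ∑ t ∈ Icc (-(M : ℤ)) M,
      (c α β t : ℤ) * (|t + τ' β - τ' α| - |t + τ β - τ α|) := by
    have h1 : ((Ψ τ : ℕ) : ℤ) ≤ ((Ψ τ' : ℕ) : ℤ) := by exact_mod_cast hτ τ'
    rw [hcast, hcast] at h1
    simp only [mul_sub, Finset.sum_sub_distrib]
    linarith
  have hG : ∀ α β t, |t + τ' β - τ' α| - |t + τ β - τ α|
      = (if α = ρ then (if β = ρ then 0 else shSg (t + τ β - τ ρ)) else 0)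
        + (if β = ρ then (if α = ρ then 0 else shSg (-t + τ α - τ ρ)) else 0) := by
    intro α β t
    by_cases hα : α = ρ
    · subst hα
      by_cases hβ : β = α
      · subst hβ
        simp
      · rw [if_pos rfl, if_neg hβ, if_neg hβ, hne β hβ, hρ, add_zero]
        unfold shSg
        split_ifs with h
        · rw [abs_of_pos h, abs_of_nonneg (by omega)]; omega
        · rw [abs_of_nonpos (by omega : t + τ β - τ α ≤ 0), abs_of_nonpos (by omega)]; omega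
    · by_cases hβ : β = ρ
      · subst hβ
        rw [if_neg hα, if_pos rfl, if_neg hα, hne α hα, hρ, zero_add]
        unfold shSg
        split_ifs with h
        · rw [abs_of_nonpos (by omega : t + τ β - τ α ≤ 0), abs_of_nonpos (by omega)]; omega
        · rw [abs_of_nonneg (by omega : 0 ≤ t + τ β - τ α), abs_of_nonneg (by omega)]; omega
      · rw [if_neg hα, if_neg hβ, hne α hα, hne β hβ]
        ring
  have h1 : ∑ α, ∑ β, ∑ t ∈ Icc (-(M : ℤ)) M,
      (c α β t : ℤ) * (|t + τ' β - τ' α| - |t + τ β - τ α|)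
      = ∑ β, ∑ t ∈ Icc (-(M : ℤ)) M, (c ρ β t : ℤ) *
          (if β = ρ then 0 else shSg (t + τ β - τ ρ))
        + ∑ α, ∑ t ∈ Icc (-(M : ℤ)) M, (c α ρ t : ℤ) *
          (if α = ρ then 0 else shSg (-t + τ α - τ ρ)) := by
    simp only [hG, mul_add, Finset.sum_add_distrib]
    congr 1
    · rw [Finset.sum_eq_single ρ]
      · refine Finset.sum_congr rfl fun β _ => Finset.sum_congr rfl fun t _ => ?_
        rw [if_pos rfl]
      · intro α _ hα
        refine Finset.sum_eq_zero fun β _ => Finset.sum_eq_zero fun t _ => ?_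
        rw [if_neg hα, mul_zero]
      · intro h
        exact absurd (Finset.mem_univ ρ) h
    · refine Finset.sum_congr rfl fun α _ => ?_
      rw [Finset.sum_eq_single ρ]
      · refine Finset.sum_congr rfl fun t _ => ?_
        rw [if_pos rfl]
      · intro β _ hβ
        refine Finset.sum_eq_zero fun t _ => ?_
        rw [if_neg hβ, mul_zero]
      · intro h
        exact absurd (Finset.mem_univ ρ) h
  have h2 : ∑ α, ∑ t ∈ Icc (-(M : ℤ)) M, (c α ρ t : ℤ) *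
          (if α = ρ then 0 else shSg (-t + τ α - τ ρ))
      = ∑ β, ∑ t ∈ Icc (-(M : ℤ)) M, (c ρ β t : ℤ) *
          (if β = ρ then 0 else shSg (t + τ β - τ ρ)) := by
    refine Finset.sum_congr rfl fun α _ => ?_
    rw [← shift_neg_sum M (fun t => (c ρ α t : ℤ) * (if α = ρ then 0 else shSg (t + τ α - τ ρ)))]
    refine Finset.sum_congr rfl fun t _ => ?_
    rw [hsymm α ρ t]
  rw [h1, h2] at h0
  have h3 : (0 : ℤ) ≤ ∑ β, ∑ t ∈ Icc (-(M : ℤ)) M, (c ρ β t : ℤ) *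
          (if β = ρ then 0 else shSg (t + τ β - τ ρ)) := by linarith
  have h4 : (0 : ℤ) ≤ ∑ t ∈ Icc (-(M : ℤ)) M, (c ρ ρ t : ℤ) * shSg t := by
    have h5 : ∑ t ∈ Icc (-(M : ℤ)) M, (c ρ ρ t : ℤ) * shSg (-t)
        = ∑ t ∈ Icc (-(M : ℤ)) M, (c ρ ρ t : ℤ) * shSg t := by
      rw [← shift_neg_sum M (fun t => (c ρ ρ t : ℤ) * shSg t)]
      refine Finset.sum_congr rfl fun t _ => ?_
      rw [hsymm ρ ρ t]
    have h6 : (0 : ℤ) ≤ ∑ t ∈ Icc (-(M : ℤ)) M, (c ρ ρ t : ℤ) * (shSg t + shSg (-t)) := by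
      refine Finset.sum_nonneg fun t _ => mul_nonneg (by positivity) ?_
      unfold shSg
      split_ifs <;> omega
    simp only [mul_add, Finset.sum_add_distrib] at h6
    rw [h5] at h6
    linarith
  have h7 : (0 : ℤ) ≤ ∑ β, ∑ t ∈ Icc (-(M : ℤ)) M, (c ρ β t : ℤ) * shSg (t + τ β - τ ρ) := by
    have h8 : ∀ β, ∑ t ∈ Icc (-(M : ℤ)) M, (c ρ β t : ℤ) * shSg (t + τ β - τ ρ)
        = ∑ t ∈ Icc (-(M : ℤ)) M, (c ρ β t : ℤ) * (if β = ρ then 0 else shSg (t + τ β - τ ρ))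
          + if β = ρ then ∑ t ∈ Icc (-(M : ℤ)) M, (c ρ ρ t : ℤ) * shSg t else 0 := by
      intro β
      by_cases hβ : β = ρ
      · subst hβ
        simp
      · simp [hβ]
    simp only [h8, Finset.sum_add_distrib, Finset.sum_ite_eq', Finset.mem_univ, if_true]
    linarith
  have h9 : ∀ β, ∑ t ∈ Icc (-(M : ℤ)) M, (c ρ β t : ℤ) * shSg (t + τ β - τ ρ)
      = ((∑ t ∈ (Icc (-(M : ℤ)) M).filter (fun t => t + τ β - τ ρ ≤ 0), c ρ β t : ℕ) : ℤ)
        - ((∑ t ∈ (Icc (-(M : ℤ)) M).filter (fun t => 0 < t + τ β - τ ρ), c ρ β t : ℕ) : ℤ) := by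
    intro β
    rw [Nat.cast_sum, Nat.cast_sum, Finset.sum_filter, Finset.sum_filter,
      ← Finset.sum_sub_distrib]
    refine Finset.sum_congr rfl fun t _ => ?_
    unfold shSg
    by_cases h : 0 < t + τ β - τ ρ
    · rw [if_pos h, if_neg (by omega), if_pos h]; ring
    · rw [if_neg h, if_pos (by omega), if_neg h]; ring
  simp only [h9, Finset.sum_sub_distrib] at h7
  rw [← Nat.cast_sum, ← Nat.cast_sum] at h7
  omega

end PoolFlat
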