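import Pool.Agent.Work.MP_70e905_nt.Flat.SumV
import Pool.Agent.Work.MP_70e905_nt.Flat.Later
import Pool.Agent.Work.MP_70e905_nt.Flat.Shift
import Pool.Agent.Work.MP_70e905_nt.Flat.Reg

/-!
# Module Flat.LevelSys : the system of parts

Let `R := {ρ // ρ ∈ Rv D n v}`, `T = #(Rv D n v)`, `S = K₀ T`, `W = primorial D`,
`q ρ σ = qc W M P ρ σ`, `B = 2 (M / W + 1)`. `regular_weights` gives `k : R → ℕ` with `∑ k = S` and
`S ∑ σ, k σ q ρ σ ≤ K₀^2 * 2 ∑ wv + S B` for `k ρ > 0` (`sum_qc`, `qc_le`, `qc_symm`).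
`balanced_shift` with `c ρ σ t = k ρ * k σ * [t ≠ 0 ∧ P |t| ∧ W ∣ t - (σ - ρ)]` gives `τ`; divided by
`k ρ > 0` it says `2 ∑ σ, k σ * #later(ρ,σ) ≤ ∑ σ, k σ * q ρ σ`, where `#later` is the first term on the
right hand side of `later_count`. Take for `ℓ` a listing in which every level `σ` occurs `q₀ * k σ`
times (an equivalence of `Fin (q₀ * S)` with `Σ σ, Fin (q₀ * k σ)`); only levels with `k σ > 0` occur.
Then `∑ b, #{y ..} ≤ q₀ ∑ σ, k σ (#later + 2)` by `later_count`, and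
`S ∑ σ, k σ #later ≤ K₀^2 ∑ wv + S (M / W + 1)`. (If `T = 0` there are no parts.)
-/

namespace PoolFlat

open Finset

/-- Conflict of positions: equal, or at a distance `≤ M` in `P`. -/
def confP (M : ℕ) (P : ℕ → Prop) (i j : ℕ) : Prop := i = j ∨ (Nat.dist i j ≤ M ∧ P (Nat.dist i j))

instance (M : ℕ) (P : ℕ → Prop) [DecidablePred P] (i j : ℕ) : Decidable (confP M P i j) := by
  unfold confP; infer_instance

theorem level_system (D n v M K₀ q₀ : ℕ) (P : ℕ → Prop) [DecidablePred P] (hK : 1 ≤ K₀) :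
    ∃ (ℓ : Fin (q₀ * (K₀ * #(Rv D n v))) → ℕ) (τ : ℕ → ℤ), (∀ a, ℓ a ∈ Rv D n v) ∧
      ∀ (n' : ℕ) (a : Fin (q₀ * (K₀ * #(Rv D n v)))) (x : Fin n'),
        (K₀ * #(Rv D n v)) * ∑ b, #{y : Fin n' |
            confP M P (ℓ a + primorial D * x) (ℓ b + primorial D * y) ∧
            ((ℓ a + primorial D * (x : ℕ) : ℕ) : ℤ) + τ (ℓ a) ≤
              ((ℓ b + primorial D * (y : ℕ) : ℕ) : ℤ) + τ (ℓ b)} ≤
          q₀ * (K₀ ^ 2 * ∑ m ∈ (Icc 1 M).filter P, wv D n v m +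
            (K₀ * #(Rv D n v)) * (M / primorial D + 1) + 2 * (K₀ * #(Rv D n v)) ^ 2) := by
  classical
  have hW : 1 ≤ primorial D := primorial_pos D
  set W := primorial D with hWdef
  have hcard : Fintype.card {ρ // ρ ∈ Rv D n v} = #(Rv D n v) := Fintype.card_coe _
  -- regular weights
  obtain ⟨k, hk1, hk2⟩ := regular_weights (R := {ρ // ρ ∈ Rv D n v})
    (fun ρ σ => qc W M P ρ.1 σ.1) (fun ρ σ => qc_symm W M P ρ.1 σ.1) (2 * (M / W + 1))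
    (fun ρ σ => qc_le W M hW P ρ.1 σ.1) K₀ hK
  rw [hcard] at hk1 hk2
  have hsumqc : ∑ ρ : {ρ // ρ ∈ Rv D n v}, ∑ σ : {ρ // ρ ∈ Rv D n v}, qc W M P ρ.1 σ.1 =
      2 * ∑ m ∈ (Icc 1 M).filter P, wv D n v m := by
    rw [← sum_qc D n v M P]
    rw [Finset.sum_coe_sort (Rv D n v)
      (fun r => ∑ σ : {ρ // ρ ∈ Rv D n v}, qc W M P r σ.1)]
    refine Finset.sum_congr rfl fun r _ => ?_
    rw [Finset.sum_coe_sort (Rv D n v) (fun s => qc W M P r s)]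
  -- the shifts
  set c : {ρ // ρ ∈ Rv D n v} → {ρ // ρ ∈ Rv D n v} → ℤ → ℕ := fun ρ σ t =>
    k ρ * k σ * (if (t ≠ 0 ∧ P t.natAbs) ∧ (W : ℤ) ∣ t - ((σ.1 : ℤ) - ρ.1) then 1 else 0) with hc
  have hsymm : ∀ ρ σ t, c ρ σ t = c σ ρ (-t) := by
    intro ρ σ t
    simp only [hc]
    have hiff : ((t ≠ 0 ∧ P t.natAbs) ∧ (W : ℤ) ∣ t - ((σ.1 : ℤ) - ρ.1)) ↔
        ((-t ≠ 0 ∧ P (-t).natAbs) ∧ (W : ℤ) ∣ -t - ((ρ.1 : ℤ) - σ.1)) := by
      rw [Int.natAbs_neg, neg_ne_zero]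
      have e : -t - ((ρ.1 : ℤ) - σ.1) = -(t - ((σ.1 : ℤ) - ρ.1)) := by ring
      rw [e, dvd_neg]
    rw [mul_comm (k σ) (k ρ)]
    congr 1
    exact if_congr hiff rfl rfl
  obtain ⟨τ', hτ⟩ := balanced_shift M c hsymm
  -- number of later conflicts
  set L : {ρ // ρ ∈ Rv D n v} → {ρ // ρ ∈ Rv D n v} → ℕ := fun ρ σ =>
    #{t ∈ (Icc (-(M : ℤ)) M).filter (fun t => 0 < t + τ' σ - τ' ρ) |
        (t ≠ 0 ∧ P t.natAbs) ∧ (W : ℤ) ∣ t - ((σ.1 : ℤ) - ρ.1)} with hL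
  have hLsum : ∀ ρ σ, ∑ t ∈ (Icc (-(M : ℤ)) M).filter (fun t => 0 < t + τ' σ - τ' ρ), c ρ σ t =
      k ρ * (k σ * L ρ σ) := by
    intro ρ σ
    simp only [hc, hL]
    rw [← Finset.mul_sum, ← Finset.card_filter, mul_assoc]
  have hall : ∀ ρ σ, ∑ t ∈ (Icc (-(M : ℤ)) M).filter (fun t => 0 < t + τ' σ - τ' ρ), c ρ σ t +
      ∑ t ∈ (Icc (-(M : ℤ)) M).filter (fun t => t + τ' σ - τ' ρ ≤ 0), c ρ σ t =
      k ρ * (k σ * qc W M P ρ.1 σ.1) := by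
    intro ρ σ
    have e : (Icc (-(M : ℤ)) M).filter (fun t => t + τ' σ - τ' ρ ≤ 0) =
        (Icc (-(M : ℤ)) M).filter (fun t => ¬ (0 < t + τ' σ - τ' ρ)) := by
      refine Finset.filter_congr fun t _ => ?_
      rw [not_lt]
    rw [e, Finset.sum_filter_add_sum_filter_not]
    simp only [hc]
    rw [← Finset.mul_sum, ← Finset.card_filter, mul_assoc]
    rfl
  have hhalf : ∀ ρ, 0 < k ρ → 2 * ∑ σ, k σ * L ρ σ ≤ ∑ σ, k σ * qc W M P ρ.1 σ.1 := by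
    intro ρ hρ
    have h1 := hτ ρ
    have h2 : ∑ σ, ∑ t ∈ (Icc (-(M : ℤ)) M).filter (fun t => 0 < t + τ' σ - τ' ρ), c ρ σ t =
        k ρ * ∑ σ, k σ * L ρ σ := by
      rw [Finset.mul_sum]
      exact Finset.sum_congr rfl fun σ _ => hLsum ρ σ
    have h3 : ∑ σ, ∑ t ∈ (Icc (-(M : ℤ)) M).filter (fun t => 0 < t + τ' σ - τ' ρ), c ρ σ t +
        ∑ σ, ∑ t ∈ (Icc (-(M : ℤ)) M).filter (fun t => t + τ' σ - τ' ρ ≤ 0), c ρ σ t =
        k ρ * ∑ σ, k σ * qc W M P ρ.1 σ.1 := by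
      rw [← Finset.sum_add_distrib, Finset.mul_sum]
      exact Finset.sum_congr rfl fun σ _ => hall ρ σ
    have h4 : k ρ * (2 * ∑ σ, k σ * L ρ σ) ≤ k ρ * ∑ σ, k σ * qc W M P ρ.1 σ.1 := by
      have : k ρ * (2 * ∑ σ, k σ * L ρ σ) = k ρ * ∑ σ, k σ * L ρ σ + k ρ * ∑ σ, k σ * L ρ σ := by
        ring
      rw [this, ← h3, ← h2]
      exact Nat.add_le_add_left h1 _
    exact Nat.le_of_mul_le_mul_left h4 hρ
  have hmain : ∀ ρ, 0 < k ρ → (K₀ * #(Rv D n v)) * ∑ σ, k σ * L ρ σ ≤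
      K₀ ^ 2 * ∑ m ∈ (Icc 1 M).filter P, wv D n v m + (K₀ * #(Rv D n v)) * (M / W + 1) := by
    intro ρ hρ
    have h1 := hk2 ρ hρ
    rw [hsumqc] at h1
    have h2 := Nat.mul_le_mul_left (K₀ * #(Rv D n v)) (hhalf ρ hρ)
    have h3 := h2.trans h1
    have h4 : 2 * ((K₀ * #(Rv D n v)) * ∑ σ, k σ * L ρ σ) ≤
        2 * (K₀ ^ 2 * ∑ m ∈ (Icc 1 M).filter P, wv D n v m +
          (K₀ * #(Rv D n v)) * (M / W + 1)) := by
      calc 2 * ((K₀ * #(Rv D n v)) * ∑ σ, k σ * L ρ σ)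
          = (K₀ * #(Rv D n v)) * (2 * ∑ σ, k σ * L ρ σ) := by ring
        _ ≤ _ := h3
        _ = _ := by ring
    exact Nat.le_of_mul_le_mul_left h4 (by norm_num)
  -- the listing
  have hcard2 : Fintype.card (Σ σ : {ρ // ρ ∈ Rv D n v}, Fin (q₀ * k σ)) =
      Fintype.card (Fin (q₀ * (K₀ * #(Rv D n v)))) := by
    rw [Fintype.card_sigma, Fintype.card_fin]
    simp only [Fintype.card_fin]
    rw [← Finset.mul_sum, hk1]
  let e : Fin (q₀ * (K₀ * #(Rv D n v))) ≃ (Σ σ : {ρ // ρ ∈ Rv D n v}, Fin (q₀ * k σ)) :=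
    (Fintype.equivOfCardEq hcard2).symm
  have hsumℓ : ∀ g : {ρ // ρ ∈ Rv D n v} → ℕ, ∑ b, g (e b).1 = q₀ * ∑ σ, k σ * g σ := by
    intro g
    rw [Equiv.sum_comp e (fun z => g z.1), Fintype.sum_sigma, Finset.mul_sum]
    refine Finset.sum_congr rfl fun σ _ => ?_
    show ∑ _y : Fin (q₀ * k σ), g σ = q₀ * (k σ * g σ)
    rw [Finset.sum_const, Finset.card_univ, Fintype.card_fin, smul_eq_mul, mul_assoc]
  refine ⟨fun a => (e a).1.1, fun m => if h : m ∈ Rv D n v then τ' ⟨m, h⟩ else 0,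
    fun a => (e a).1.2, ?_⟩
  intro n' a x
  have hτv : ∀ ρ : {ρ // ρ ∈ Rv D n v},
      (if h : ρ.1 ∈ Rv D n v then τ' ⟨ρ.1, h⟩ else 0) = τ' ρ := by
    intro ρ
    rw [dif_pos ρ.2]
  have hlt : ∀ ρ : {ρ // ρ ∈ Rv D n v}, ρ.1 < W := by
    intro ρ
    have := ρ.2
    unfold Rv at this
    rw [Finset.mem_filter, Finset.mem_range] at this
    exact this.1
  have hkpos : 0 < k (e a).1 := by
    have := (e a).2.pos
    exact Nat.pos_of_mul_pos_left this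
  have hstep : ∀ b, #{y : Fin n' |
            confP M P ((e a).1.1 + W * x) ((e b).1.1 + W * y) ∧
            (((e a).1.1 + W * (x : ℕ) : ℕ) : ℤ) +
                (if h : (e a).1.1 ∈ Rv D n v then τ' ⟨(e a).1.1, h⟩ else 0) ≤
              (((e b).1.1 + W * (y : ℕ) : ℕ) : ℤ) +
                (if h : (e b).1.1 ∈ Rv D n v then τ' ⟨(e b).1.1, h⟩ else 0)} ≤
      L (e a).1 (e b).1 + 2 := by
    intro b
    rw [hτv, hτv]
    refine le_trans (le_of_eq ?_) (later_count W M n' hW P (e a).1.1 (e b).1.1 (hlt _) (hlt _)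
      (τ' (e a).1) (τ' (e b).1) x)
    congr 1
  calc (K₀ * #(Rv D n v)) * ∑ b, #{y : Fin n' |
            confP M P ((e a).1.1 + W * x) ((e b).1.1 + W * y) ∧
            (((e a).1.1 + W * (x : ℕ) : ℕ) : ℤ) +
                (if h : (e a).1.1 ∈ Rv D n v then τ' ⟨(e a).1.1, h⟩ else 0) ≤
              (((e b).1.1 + W * (y : ℕ) : ℕ) : ℤ) +
                (if h : (e b).1.1 ∈ Rv D n v then τ' ⟨(e b).1.1, h⟩ else 0)}
      ≤ (K₀ * #(Rv D n v)) * ∑ b, (L (e a).1 (e b).1 + 2) := by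
        gcongr with b _
        exact hstep b
    _ = (K₀ * #(Rv D n v)) * (q₀ * ∑ σ, k σ * (L (e a).1 σ + 2)) := by
        rw [hsumℓ (fun σ => L (e a).1 σ + 2)]
    _ = q₀ * ((K₀ * #(Rv D n v)) * ∑ σ, k σ * L (e a).1 σ + 2 * (K₀ * #(Rv D n v)) ^ 2) := by
        have h5 : ∑ σ, k σ * (L (e a).1 σ + 2) = ∑ σ, k σ * L (e a).1 σ + 2 * ∑ σ, k σ := by
          rw [Finset.mul_sum, ← Finset.sum_add_distrib]
          exact Finset.sum_congr rfl fun σ _ => (by ring)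
        rw [h5, hk1]; ring
    _ ≤ q₀ * (K₀ ^ 2 * ∑ m ∈ (Icc 1 M).filter P, wv D n v m +
            (K₀ * #(Rv D n v)) * (M / W + 1) + 2 * (K₀ * #(Rv D n v)) ^ 2) := by
        gcongr
        exact hmain _ hkpos

end PoolFlat
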