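import Pool.Agent.Work.MP_70e905_nt.Flat.Core
import Pool.Agent.Work.MP_70e905_nt.Flat.LevelSys

/-!
# Module Flat.FlatV : the flat density theorem for one `v`

WLOG `ε ≤ 1 / (2 K)`, `ε ≤ 1` (if `1/K - ε ≤ 0` the claim is trivial; in general replace `ε` by a smaller
one). `W = primorial D`, `K₀ = ⌈8/ε⌉`, `p = 1/K - ε/4`, `η = ε/16`, `δ = K ε/16` and `q₀` so large that
`q₀ ≥ 8/ε + 1`, `q₀ ≥ 1/(η^2 δ)`. For `T ∈ [1, W]` put `N = q₀ K₀ T`; the hypotheses of `core K L N Q p η δ`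
hold: `K (1 + (p + η) N) = K + (1 - 3 K ε/16) N < (1 - K ε/16) N` since `N > 8/ε`. Let `n₀` be the
maximum of its values for these `T`, and `M₀` such that `n' := M / W ≥ max n₀ (6/ε)`.
Suppose the claim fails for `v`; then `T = #(Rv D n v) ≥ 1` (else both sums are `0`), and
`∑_P wv < (1/K - ε) ∑ wv ≤ (1/K - ε)(n' + 1) T^2` (`sum_wv_le`). With `S = K₀ T`, `level_system` gives
`S ∑ b, #{y ..} ≤ q₀ ((1/K - ε)(n'+1) S^2 + S (n'+1) + 2 S^2) ≤ S p N n'`, because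
`(1/K - ε)(1 + 1/n') + (1 + 1/n')/S + 2/n' ≤ 1/K - ε + 1/n' + 2/S + 2/n' ≤ 1/K - ε/4`.
Apply `core` with `conf a b x y = confP M P (pos a x) (pos b y)`, `pos a x = ℓ a + W x`,
`key a x = pos a x + τ (ℓ a)`, `col a x = pos a x mod Q`. Put `h (i, s) = pos (c i) (A i s)`; then
`h < W n' ≤ M`, `h` is injective (equal positions are in conflict), `v + h n ≡ v + ℓ n` is prime to
`W`, clusters are constant mod `Q`; `CluF` gives two elements of different clusters at a distance in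
`P`, and `< M`: a conflict, contradiction.
-/

namespace PoolFlat

open Finset

private theorem fV_symm (M : ℕ) (P : ℕ → Prop) (i j : ℕ) (h : confP M P i j) : confP M P j i := by
  rcases h with h | ⟨h1, h2⟩
  · exact Or.inl h.symm
  · refine Or.inr ⟨?_, ?_⟩
    · rwa [Nat.dist_comm]
    · rwa [Nat.dist_comm]

/-- the conclusion for a system of parts with few later conflicts -/
private theorem fV_contra (K L Q D n v M n' N : ℕ) (P : ℕ → Prop) (hn' : primorial D * n' ≤ M)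
    (ℓ : Fin N → ℕ) (hℓ : ∀ a, ℓ a ∈ Rv D n v)
    (hClu : CluF K L D Q n M P)
    (c : Fin (K + 1) → Fin N)
    (A : Fin (K + 1) → Fin L → Fin n') (hA : ∀ i, Function.Injective (A i))
    (hcol : ∀ i, ∀ s t, (ℓ (c i) + primorial D * (A i s : ℕ)) % Q
      = (ℓ (c i) + primorial D * (A i t : ℕ)) % Q)
    (hno : ∀ i j, i ≠ j → ∀ s t, ¬ confP M P (ℓ (c i) + primorial D * (A i s : ℕ))
      (ℓ (c j) + primorial D * (A j t : ℕ))) : False := by
  have hW : 0 < primorial D := primorial_pos D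
  have hRv : ∀ a, ℓ a < primorial D ∧ (v + ℓ a * n).Coprime (primorial D) := by
    intro a
    have h := hℓ a
    unfold Rv at h
    rw [mem_filter, mem_range] at h
    exact h
  let h : Fin (K + 1) × Fin L → ℕ := fun s => ℓ (c s.1) + primorial D * (A s.1 s.2 : ℕ)
  have hlt : ∀ s, h s < M := by
    intro s
    have h1 := (hRv (c s.1)).1
    have h2 : (A s.1 s.2 : ℕ) + 1 ≤ n' := (A s.1 s.2).2
    have h3 : primorial D * ((A s.1 s.2 : ℕ) + 1) ≤ primorial D * n' := Nat.mul_le_mul_left _ h2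
    change ℓ (c s.1) + primorial D * (A s.1 s.2 : ℕ) < M
    rw [mul_add, mul_one] at h3
    omega
  have hinj : Function.Injective h := by
    rintro ⟨i, s⟩ ⟨j, t⟩ hst
    change ℓ (c i) + primorial D * (A i s : ℕ) = ℓ (c j) + primorial D * (A j t : ℕ) at hst
    by_cases hij : i = j
    · subst hij
      have h1 : primorial D * (A i s : ℕ) = primorial D * (A i t : ℕ) := by omega
      have h2 : (A i s : ℕ) = (A i t : ℕ) := Nat.eq_of_mul_eq_mul_left hW h1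
      have h3 : s = t := hA i (Fin.ext h2)
      rw [h3]
    · exact absurd (Or.inl hst) (hno i j hij s t)
  have hcop : ∀ s, (v + h s * n).Coprime (primorial D) := by
    intro s
    have h1 := (hRv (c s.1)).2
    have h2 : v + h s * n = (v + ℓ (c s.1) * n) + primorial D * ((A s.1 s.2 : ℕ) * n) := by
      change v + (ℓ (c s.1) + primorial D * (A s.1 s.2 : ℕ)) * n = _
      ring
    rw [h2]
    exact (Nat.coprime_add_mul_left_left _ _ _).2 h1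
  obtain ⟨s, t, hst, hP⟩ := hClu v h hinj hlt hcop (fun i s t => hcol i s t)
  refine hno s.1 t.1 hst s.2 t.2 (Or.inr ⟨?_, hP⟩)
  have h1 := hlt s
  have h2 := hlt t
  change Nat.dist (h s) (h t) ≤ M
  unfold Nat.dist
  omega

private theorem fV_real (iK ε n' S p : ℝ) (hiK : iK ≤ 1) (hε : 0 < ε) (hn' : 6 / ε ≤ n')
    (hn'4 : 1 ≤ n') (hS8 : 8 / ε ≤ S) (hSr : 1 ≤ S) (hp : p = iK - ε / 4) :
    (iK - ε) * (n' + 1) * S ^ 2 + S * (n' + 1) + 2 * S ^ 2 ≤ S * (p * S * n') := by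
  rw [div_le_iff₀ hε] at hn' hS8
  have h1 := mul_le_mul_of_nonneg_left hn' (by linarith : 0 ≤ S / 2)
  have h2 := mul_le_mul_of_nonneg_left hS8 (by linarith : 0 ≤ n' / 4)
  have h3 := mul_nonneg (by linarith : 0 ≤ 1 - (iK - ε)) (by linarith : 0 ≤ S)
  have h4 : (iK - ε) * (n' + 1) * S + (n' + 1) + 2 * S ≤ p * S * n' := by
    rw [hp]
    linarith
  have h5 := mul_le_mul_of_nonneg_left h4 (by linarith : 0 ≤ S)
  calc (iK - ε) * (n' + 1) * S ^ 2 + S * (n' + 1) + 2 * S ^ 2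
      = S * ((iK - ε) * (n' + 1) * S + (n' + 1) + 2 * S) := by ring
    _ ≤ _ := h5

private theorem fV_num (K ε p η δ N : ℝ) (hK : 0 < K) (hε : 0 < ε) (hN : 8 / ε < N)
    (hp : p = 1 / K - ε / 4) (hη : η = ε / 16) (hδ : δ = K * ε / 16) :
    K * (1 + (p + η) * N) < (1 - δ) * N := by
  rw [div_lt_iff₀ hε] at hN
  have h1 : K * (1 / K) = 1 := by field_simp
  have h2 : K * (1 + (p + η) * N) = K + (1 - 3 * (K * ε) / 16) * N := by
    rw [hp, hη]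
    linear_combination N * h1
  rw [h2, hδ]
  have h3 := mul_lt_mul_of_pos_left hN (by linarith : 0 < K / 8)
  linarith

private theorem flat_v_small (K L Q : ℕ) (hK : 1 ≤ K) (hQ : 1 ≤ Q) (ε : ℝ) (hε : 0 < ε)
    (hε2 : ε ≤ 1 / (2 * K)) (D : ℕ) :
    ∃ M₀ : ℕ, ∀ M n v : ℕ, M₀ ≤ M → ∀ (P : ℕ → Prop) [DecidablePred P], CluF K L D Q n M P →
      (1 / (K : ℝ) - ε) * ∑ m ∈ Icc 1 M, (wv D n v m : ℝ) ≤
        ∑ m ∈ (Icc 1 M).filter P, (wv D n v m : ℝ) := by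
  have hK' : (1 : ℝ) ≤ K := by exact_mod_cast hK
  have hK0 : (0 : ℝ) < K := by linarith
  have hKε : (K : ℝ) * ε ≤ 1 / 2 := by
    calc (K : ℝ) * ε ≤ K * (1 / (2 * K)) := mul_le_mul_of_nonneg_left hε2 hK0.le
      _ = 1 / 2 := by field_simp
  have hinvK : 1 / (K : ℝ) ≤ 1 := by
    rw [div_le_one hK0]; exact hK'
  have hinv2 : 1 / (2 * (K : ℝ)) = 1 / K / 2 := by
    rw [div_div, mul_comm]
  have hinv0 : 0 < 1 / (K : ℝ) := by positivity
  have hε1 : ε ≤ 1 / (K : ℝ) / 2 := by rw [← hinv2]; exact hε2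
  set W := primorial D with hWdef
  have hW : 0 < W := primorial_pos D
  obtain ⟨K₀, hK₀⟩ := exists_nat_ge (8 / ε)
  have h8 : (0 : ℝ) < 8 / ε := by positivity
  have hK₀1 : 1 ≤ K₀ := by
    rcases Nat.eq_zero_or_pos K₀ with h | h
    · rw [h, Nat.cast_zero] at hK₀
      linarith
    · exact h
  set p : ℝ := 1 / K - ε / 4 with hp
  set η : ℝ := ε / 16 with hη
  set δ : ℝ := K * ε / 16 with hδ
  have hp0 : 0 ≤ p := by rw [hp]; linarith
  have hη0 : 0 < η := by rw [hη]; positivity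
  have hδ0 : 0 < δ := by rw [hδ]; positivity
  obtain ⟨q₀, hq₀⟩ := exists_nat_ge (max (8 / ε + 1) (1 / (η ^ 2 * δ)))
  have hq1 : 8 / ε + 1 ≤ q₀ := (le_max_left _ _).trans hq₀
  have hq2 : 1 / (η ^ 2 * δ) ≤ q₀ := (le_max_right _ _).trans hq₀
  have hq0 : (0 : ℝ) < q₀ := by linarith
  have hcore : ∀ T : ℕ, ∃ n₀ : ℕ, 1 ≤ T → ∀ n : ℕ, n₀ ≤ n →
      ∀ (conf : Fin (q₀ * (K₀ * T)) → Fin (q₀ * (K₀ * T)) → Fin n → Fin n → Prop)
        (key : Fin (q₀ * (K₀ * T)) → Fin n → ℤ)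
        (col : Fin (q₀ * (K₀ * T)) → Fin n → Fin Q)
        [∀ a b x y, Decidable (conf a b x y)],
        (∀ a b x y, conf a b x y → conf b a y x) →
        (∀ a x, ∑ b, (#{y | conf a b x y ∧ key a x ≤ key b y} : ℝ)
          ≤ p * ((q₀ * (K₀ * T) : ℕ) : ℝ) * n) →
        ∃ c : Fin (K + 1) → Fin (q₀ * (K₀ * T)), StrictMono c ∧
          ∃ A : Fin (K + 1) → Fin L → Fin n, (∀ i, Function.Injective (A i)) ∧
            (∀ i, ∀ s t, col (c i) (A i s) = col (c i) (A i t)) ∧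
            ∀ i j, i ≠ j → ∀ s t, ¬ conf (c i) (c j) (A i s) (A j t) := by
    intro T
    rcases Nat.eq_zero_or_pos T with hT | hT
    · exact ⟨0, fun h => absurd h (by omega)⟩
    · have hS : 1 ≤ K₀ * T := Nat.mul_pos hK₀1 hT
      have hN : (q₀ : ℝ) ≤ ((q₀ * (K₀ * T) : ℕ) : ℝ) := by
        exact_mod_cast Nat.le_mul_of_pos_right q₀ hS
      obtain ⟨n₀, hn₀⟩ := core K L (q₀ * (K₀ * T)) Q p η δ hp0 hη0 hδ0 (hq2.trans hN) (by
        have h1 : 8 / ε < ((q₀ * (K₀ * T) : ℕ) : ℝ) := by linarith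
        exact fV_num K ε p η δ _ hK0 hε h1 hp hη hδ)
      exact ⟨n₀, fun _ => hn₀⟩
  choose n₀ hn₀ using hcore
  obtain ⟨n₁, hn₁⟩ := exists_nat_ge (6 / ε)
  set n₂ : ℕ := max ((range (W + 1)).sup n₀) (max n₁ 1) with hn₂
  refine ⟨W * n₂, fun M n v hM P _ hClu => ?_⟩
  by_contra hcon
  rw [not_le] at hcon
  set T := #(Rv D n v) with hT
  set n' := M / W with hn'
  have hn'2 : n₂ ≤ n' := by
    rw [hn', Nat.le_div_iff_mul_le hW, mul_comm]; exact hM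
  have hTW : T ≤ W := by
    rw [hT]
    unfold Rv
    exact (card_filter_le _ _).trans (by rw [card_range])
  have hn'1 : n₀ T ≤ n' := by
    refine le_trans ?_ ((le_max_left _ _).trans hn'2)
    exact Finset.le_sup (f := n₀) (mem_range.2 (by omega))
  have hn'3 : 6 / ε ≤ (n' : ℝ) := by
    refine hn₁.trans ?_
    exact_mod_cast ((le_max_left n₁ 1).trans (le_max_right _ _)).trans hn'2
  have hn'4 : (1 : ℝ) ≤ (n' : ℝ) := by
    exact_mod_cast ((le_max_right n₁ 1).trans (le_max_right _ _)).trans hn'2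
  have hwvT : ∀ m, wv D n v m ≤ T := by
    intro m
    rw [hT]
    unfold wv Rv
    refine card_le_card fun ρ hρ => ?_
    rw [mem_filter] at hρ ⊢
    exact ⟨hρ.1, hρ.2.1⟩
  have hT1 : 1 ≤ T := by
    rcases Nat.eq_zero_or_pos T with h | h
    · exfalso
      have h0 : ∀ m, (wv D n v m : ℝ) = 0 := by
        intro m
        have := hwvT m
        have h2 : wv D n v m = 0 := by omega
        rw [h2, Nat.cast_zero]
      simp [h0] at hcon
    · exact h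
  set S := K₀ * T with hS
  have hlev0 : ∃ (ℓ : Fin (q₀ * S) → ℕ) (τ : ℕ → ℤ), (∀ a, ℓ a ∈ Rv D n v) ∧
      ∀ (n'' : ℕ) (a : Fin (q₀ * S)) (x : Fin n''),
        S * ∑ b, #{y : Fin n'' | confP M P (ℓ a + W * x) (ℓ b + W * y) ∧
          ((ℓ a + W * (x : ℕ) : ℕ) : ℤ) + τ (ℓ a) ≤ ((ℓ b + W * (y : ℕ) : ℕ) : ℤ) + τ (ℓ b)}
        ≤ q₀ * (K₀ ^ 2 * ∑ m ∈ (Icc 1 M).filter P, wv D n v m + S * (n' + 1) + 2 * S ^ 2) :=
    level_system D n v M K₀ q₀ P hK₀1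
  obtain ⟨ℓ, τ, hℓ, hlev⟩ := hlev0
  have hS1 : 1 ≤ S := Nat.mul_pos hK₀1 hT1
  have hSr : (1 : ℝ) ≤ S := by exact_mod_cast hS1
  have hS8 : 8 / ε ≤ (S : ℝ) := by
    refine hK₀.trans ?_
    exact_mod_cast Nat.le_mul_of_pos_right K₀ hT1
  -- the sum
  have hsum : ∀ (a : Fin (q₀ * S)) (x : Fin n'),
      ∑ b, (#{y : Fin n' | confP M P (ℓ a + W * x) (ℓ b + W * y) ∧
        ((ℓ a + W * (x : ℕ) : ℕ) : ℤ) + τ (ℓ a) ≤ ((ℓ b + W * (y : ℕ) : ℕ) : ℤ) + τ (ℓ b)} : ℝ)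
        ≤ p * ((q₀ * S : ℕ) : ℝ) * n' := by
    intro a x
    have h1 := hlev n' a x
    have h2 : ((S * ∑ b, #{y : Fin n' | confP M P (ℓ a + W * x) (ℓ b + W * y) ∧
        ((ℓ a + W * (x : ℕ) : ℕ) : ℤ) + τ (ℓ a) ≤ ((ℓ b + W * (y : ℕ) : ℕ) : ℤ) + τ (ℓ b)} : ℕ) : ℝ)
        ≤ ((q₀ * (K₀ ^ 2 * ∑ m ∈ (Icc 1 M).filter P, wv D n v m + S * (n' + 1) + 2 * S ^ 2) : ℕ)
          : ℝ) := by exact_mod_cast h1
    push_cast at h2
    have h3 : ∑ m ∈ Icc 1 M, (wv D n v m : ℝ) ≤ ((n' : ℝ) + 1) * (T : ℝ) ^ 2 := by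
      have := sum_wv_le D n v M
      rw [← hWdef, ← hn', ← hT] at this
      exact_mod_cast this
    have hpos : 0 ≤ 1 / (K : ℝ) - ε := by linarith
    have h4 : ∑ m ∈ (Icc 1 M).filter P, (wv D n v m : ℝ)
        ≤ (1 / (K : ℝ) - ε) * (((n' : ℝ) + 1) * (T : ℝ) ^ 2) :=
      hcon.le.trans (mul_le_mul_of_nonneg_left h3 hpos)
    have h5 : (K₀ : ℝ) ^ 2 * ∑ m ∈ (Icc 1 M).filter P, (wv D n v m : ℝ)
        ≤ (1 / (K : ℝ) - ε) * ((n' : ℝ) + 1) * (S : ℝ) ^ 2 := by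
      refine (mul_le_mul_of_nonneg_left h4 (by positivity)).trans (le_of_eq ?_)
      rw [hS]
      push_cast
      ring
    have h6 : (q₀ : ℝ) * ((K₀ : ℝ) ^ 2 * ∑ m ∈ (Icc 1 M).filter P, (wv D n v m : ℝ)
        + S * (n' + 1) + 2 * S ^ 2) ≤ S * (p * ((q₀ * S : ℕ) : ℝ) * n') := by
      have h7 : (K₀ : ℝ) ^ 2 * ∑ m ∈ (Icc 1 M).filter P, (wv D n v m : ℝ)
        + S * (n' + 1) + 2 * S ^ 2 ≤ S * (p * S * n') := by
        have h8 := fV_real (1 / (K : ℝ)) ε n' S p hinvK hε hn'3 hn'4 hS8 hSr hp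
        linarith
      have h14 := mul_le_mul_of_nonneg_left h7 hq0.le
      refine h14.trans (le_of_eq ?_)
      push_cast
      ring
    have h15 := h2.trans h6
    have h16 : (0 : ℝ) < S := by linarith
    exact le_of_mul_le_mul_left h15 h16
  obtain ⟨c, _, A, hA, hcol, hno⟩ := hn₀ T hT1 n' hn'1
    (fun a b x y => confP M P (ℓ a + W * x) (ℓ b + W * y))
    (fun a x => ((ℓ a + W * (x : ℕ) : ℕ) : ℤ) + τ (ℓ a))
    (fun a x => ⟨(ℓ a + W * (x : ℕ)) % Q, Nat.mod_lt _ hQ⟩)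
    (fun a b x y h => fV_symm M P _ _ h) hsum
  refine fV_contra K L Q D n v M n' (q₀ * S) P ?_ ℓ hℓ hClu c A hA (fun i s t => ?_) hno
  · rw [hn', ← hWdef]
    exact Nat.mul_div_le M W
  · have := congrArg Fin.val (hcol i s t)
    exact this

theorem flat_v (K L Q : ℕ) (hK : 1 ≤ K) (hQ : 1 ≤ Q) (ε : ℝ) (hε : 0 < ε) (D : ℕ) :
    ∃ M₀ : ℕ, ∀ M n v : ℕ, M₀ ≤ M → ∀ (P : ℕ → Prop) [DecidablePred P], CluF K L D Q n M P →
      (1 / (K : ℝ) - ε) * ∑ m ∈ Icc 1 M, (wv D n v m : ℝ) ≤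
        ∑ m ∈ (Icc 1 M).filter P, (wv D n v m : ℝ) := by
  have hK0 : (0 : ℝ) < K := by exact_mod_cast hK
  obtain ⟨M₀, h⟩ := flat_v_small K L Q hK hQ (min ε (1 / (2 * K))) (lt_min hε (by positivity))
    (min_le_right _ _) D
  refine ⟨M₀, fun M n v hM P _ hP => le_trans ?_ (h M n v hM P hP)⟩
  refine mul_le_mul_of_nonneg_right ?_ (Finset.sum_nonneg fun m _ => Nat.cast_nonneg _)
  have := min_le_left ε (1 / (2 * (K : ℝ)))
  linarith

end PoolFlat
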