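import Pool.Agent.Work.MP_70e905_nt.Flat.FlatV

/-!
# Module Flat.FlatWt : the flat density theorem with the weights `wt`

Sum `flat_v` over `v < W` and use `sum_wv`; divide by `W = primorial D > 0`.
-/

namespace PoolFlat

open Finset

theorem flat_wt (K L Q : ℕ) (hK : 1 ≤ K) (hQ : 1 ≤ Q) (ε : ℝ) (hε : 0 < ε) (D : ℕ) :
    ∃ M₀ : ℕ, ∀ M n : ℕ, M₀ ≤ M → ∀ (P : ℕ → Prop) [DecidablePred P], CluF K L D Q n M P →
      (1 / (K : ℝ) - ε) * ∑ m ∈ Icc 1 M, (PoolQ4.wt D n m : ℝ) ≤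
        ∑ m ∈ (Icc 1 M).filter P, (PoolQ4.wt D n m : ℝ) := by
  obtain ⟨M₀, h⟩ := flat_v K L Q hK hQ ε hε D
  refine ⟨M₀, fun M n hM P _ hP => ?_⟩
  have hW : (0 : ℝ) < primorial D := by exact_mod_cast primorial_pos D
  have h1 : ∑ v ∈ range (primorial D), (1 / (K : ℝ) - ε) * ∑ m ∈ Icc 1 M, (wv D n v m : ℝ)
      ≤ ∑ v ∈ range (primorial D), ∑ m ∈ (Icc 1 M).filter P, (wv D n v m : ℝ) :=
    Finset.sum_le_sum fun v _ => h M n v hM P hP
  have h2 : ∀ s : Finset ℕ, ∑ v ∈ range (primorial D), ∑ m ∈ s, (wv D n v m : ℝ)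
      = primorial D * ∑ m ∈ s, (PoolQ4.wt D n m : ℝ) := by
    intro s
    rw [Finset.sum_comm, Finset.mul_sum]
    refine Finset.sum_congr rfl fun m _ => ?_
    have h3 := sum_wv D n m
    have h4 : ((∑ v ∈ range (primorial D), wv D n v m : ℕ) : ℝ)
        = ((primorial D * PoolQ4.wt D n m : ℕ) : ℝ) := by rw [h3]
    push_cast at h4
    exact h4
  rw [← Finset.mul_sum, h2, h2] at h1
  refine le_of_mul_le_mul_left (le_trans (le_of_eq ?_) h1) hW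
  ring

end PoolFlat
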