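import Mathlib

/-!
# Module Flat.Greedy : one-sided greedy

Strong induction on `#S`. If `S` is nonempty take `x ∈ S` with the least key (`exists_min_image`); all
elements of `S` in conflict with `x` have a key `≥ key x`, so there are at most `d`. Remove `x` and
them, and add `x` to the set obtained by induction.
-/

namespace PoolFlat

open Finset

theorem greedy {V : Type} [DecidableEq V] (conf : V → V → Prop) [DecidableRel conf]
    (hsymm : ∀ x y, conf x y → conf y x) (key : V → ℤ) (d : ℝ) (hd0 : 0 ≤ d) (S : Finset V)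
    (hd : ∀ x ∈ S, (#{y ∈ S | y ≠ x ∧ conf x y ∧ key x ≤ key y} : ℝ) ≤ d) :
    ∃ X : Finset V, X ⊆ S ∧ (∀ x ∈ X, ∀ y ∈ X, x ≠ y → ¬ conf x y) ∧
      (#S : ℝ) ≤ #X * (1 + d) := by
  induction S using Finset.strongInduction with
  | H S ih =>
    rcases S.eq_empty_or_nonempty with rfl | hne
    · exact ⟨∅, subset_rfl, by simp, by simp⟩
    obtain ⟨x, hx, hmin⟩ := exists_min_image S key hne
    have hTS : (S.erase x) \ {y ∈ S | y ≠ x ∧ conf x y ∧ key x ≤ key y} ⊂ S :=
      lt_of_le_of_lt sdiff_subset (erase_ssubset hx)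
    obtain ⟨X, hXT, hXc, hXn⟩ := ih _ hTS (fun y hy => le_trans (by
      exact_mod_cast card_le_card (filter_subset_filter _ hTS.subset)) (hd y (hTS.subset hy)))
    have hxX : x ∉ X := fun h => by
      have := hXT h
      simp at this
    have hfree : ∀ y ∈ X, ¬ conf x y := by
      intro y hy hc
      have h1 := hXT hy
      simp only [mem_sdiff, mem_erase, mem_filter, not_and] at h1
      exact h1.2 h1.1.2 h1.1.1 hc (hmin y h1.1.2)
    refine ⟨insert x X, ?_, ?_, ?_⟩
    · exact insert_subset hx (hXT.trans hTS.subset)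
    · intro a ha b hb hab
      rcases mem_insert.1 ha with rfl | ha'
      · rcases mem_insert.1 hb with rfl | hb'
        · exact absurd rfl hab
        · exact hfree b hb'
      · rcases mem_insert.1 hb with rfl | hb'
        · exact fun h => hfree a ha' (hsymm _ _ h)
        · exact hXc a ha' b hb' hab
    · rw [card_insert_of_notMem hxX]
      have h1 : #S ≤ #((S.erase x) \ {y ∈ S | y ≠ x ∧ conf x y ∧ key x ≤ key y}) + 1 +
          #{y ∈ S | y ≠ x ∧ conf x y ∧ key x ≤ key y} := by
        have h2 := card_erase_add_one hx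
        have h3 : #(S.erase x) ≤ #((S.erase x) \ {y ∈ S | y ≠ x ∧ conf x y ∧ key x ≤ key y}) +
            #{y ∈ S | y ≠ x ∧ conf x y ∧ key x ≤ key y} := by
          have := le_card_sdiff {y ∈ S | y ≠ x ∧ conf x y ∧ key x ≤ key y} (S.erase x)
          omega
        omega
      have h4 : (#S : ℝ) ≤ #((S.erase x) \ {y ∈ S | y ≠ x ∧ conf x y ∧ key x ≤ key y}) + 1 +
          #{y ∈ S | y ≠ x ∧ conf x y ∧ key x ≤ key y} := by exact_mod_cast h1
      have h5 := hd x hx
      push_cast
      linarith

end PoolFlat
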