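import Pool.Agent.Work.MP_70e905_nt.Q4.Defs

/-!
# Flat: number theoretic definitions

`W = primorial D` throughout. For a fixed `v`, the levels are the classes `ρ < W` with `v + ρ n` prime
to `W`.

* `Rv D n v` : the finset of the levels.
* `wv D n v m` : number of `ρ < W` with `ρ` and `ρ + m` (mod `W`) both levels.
* `qc W M P r s` : number of `t` with `|t| ≤ M`, `t ≠ 0`, `P |t|` and `t ≡ s - r` mod `W`.
* `CluF K L D Q n M P` : every `K + 1` clusters of `L` integers `< M`, each cluster in one class modulo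
  `Q`, all `v + h n` prime to `primorial D`, contain two elements of different clusters with
  a distance in `P`.
-/

namespace PoolFlat

open Finset

def Rv (D n v : ℕ) : Finset ℕ := {ρ ∈ range (primorial D) | (v + ρ * n).Coprime (primorial D)}

def wv (D n v m : ℕ) : ℕ :=
  #{ρ ∈ range (primorial D) | (v + ρ * n).Coprime (primorial D) ∧
    (v + (ρ + m) * n).Coprime (primorial D)}

noncomputable def qc (W M : ℕ) (P : ℕ → Prop) [DecidablePred P] (r s : ℕ) : ℕ :=
  #{t ∈ Icc (-(M : ℤ)) M | (t ≠ 0 ∧ P t.natAbs) ∧ (W : ℤ) ∣ t - ((s : ℤ) - r)}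

def CluF (K L D Q n M : ℕ) (P : ℕ → Prop) : Prop :=
  ∀ (v : ℕ) (h : Fin (K + 1) × Fin L → ℕ), Function.Injective h →
    (∀ s, h s < M) → (∀ s, (v + h s * n).Coprime (primorial D)) →
    (∀ c i j, h (c, i) ≡ h (c, j) [MOD Q]) →
    ∃ s t, s.1 ≠ t.1 ∧ P (Nat.dist (h s) (h t))

end PoolFlat
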