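import Pool.Agent.Work.MP_70e905_nt.Flat.NDefs
import Pool.Agent.Work.MP_70e905_nt.Q4.LocalW

/-!
# Module Flat.SumV

`sum_wv`: exchange the sums over `v` and `ρ`; for fixed `ρ` the count over `v` is
`PoolQ4.localW D n ρ (ρ + m)` (`Nat.dist ρ (ρ + m) = m`).
`sum_wv_le`: over `W` consecutive values of `m` the sum of `wv D n v m` is `#(Rv D n v)^2` (for each
level `ρ`, `m ↦ (ρ + m) mod W` runs through all classes); `[1, M]` is covered by `M / W + 1` such blocks.
`sum_qc`: exchange the sums: for `t = m > 0` the number of pairs `(r, s)` of levels with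
`s ≡ r + t` mod `W` is `wv D n v m`, for `t = -m` it is the same (exchange `r` and `s`).
`qc_le`: the `t` in `[-M, M]` of one class mod `W` are at most `2 M / W + 1` many.
`qc_symm`: `t ↦ -t`.
-/

namespace PoolFlat

open Finset

private theorem sumv_per (D n v : ℕ) :
    Function.Periodic (fun x => (v + x * n).Coprime (primorial D)) (primorial D) := by
  intro x
  have : v + (x + primorial D) * n = v + x * n + primorial D * n := by ring
  simp only [this]
  rw [Nat.coprime_add_mul_left_left]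

private theorem sumv_count {W : ℕ} (hW : 0 < W) {p : ℕ → Prop} [DecidablePred p]
    (hp : Function.Periodic p W) (M : ℕ) :
    #{m ∈ Icc 1 M | p m} ≤ (M / W + 1) * Nat.count p W := by
  have h1 : ∀ L : ℕ, Nat.count p (L * W) = L * Nat.count p W := by
    intro L
    induction L with
    | zero => simp
    | succ L ih =>
      have h2 : ∀ k, p (L * W + k) = p k := by
        intro k
        have := hp.nat_mul L k
        rw [add_comm]
        exact this
      rw [Nat.succ_mul, Nat.count_add, ih]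
      simp only [h2]
      ring
  have h3 := Nat.filter_Ico_card_eq_of_periodic 1 ((M / W + 1) * W) p (hp.nat_mul (M / W + 1))
  rw [h1] at h3
  rw [← h3]
  refine card_le_card (filter_subset_filter _ fun m hm => ?_)
  rw [mem_Icc] at hm
  rw [mem_Ico]
  have := Nat.lt_mul_div_succ M hW
  rw [mul_comm] at this
  omega

private theorem sumv_one (D n v m r : ℕ) :
    ∑ s ∈ Rv D n v, (if ((primorial D : ℕ) : ℤ) ∣ (m : ℤ) - ((s : ℤ) - r) then 1 else 0) =
      if (v + (r + m) * n).Coprime (primorial D) then 1 else 0 := by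
  classical
  have hW : 0 < primorial D := primorial_pos D
  have hper := sumv_per D n v
  have hmod : ∀ x, (v + x % primorial D * n).Coprime (primorial D) =
      (v + x * n).Coprime (primorial D) := fun x => hper.map_mod_nat x
  have hiff : ∀ s, s ∈ Rv D n v → (((primorial D : ℕ) : ℤ) ∣ (m : ℤ) - ((s : ℤ) - r) ↔
      s = (r + m) % primorial D) := by
    intro s hs
    have hs1 := mem_range.1 (mem_filter.1 hs).1
    have h1 : (m : ℤ) - ((s : ℤ) - r) = ((r + m : ℕ) : ℤ) - (s : ℤ) := by push_cast; ring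
    rw [h1, ← Nat.modEq_iff_dvd]
    unfold Nat.ModEq
    rw [Nat.mod_eq_of_lt hs1]
  rw [← card_filter, filter_congr hiff, filter_eq']
  have hmem : (r + m) % primorial D ∈ Rv D n v ↔ (v + (r + m) * n).Coprime (primorial D) := by
    unfold Rv
    rw [mem_filter, mem_range, hmod]
    exact ⟨fun h => h.2, fun h => ⟨Nat.mod_lt _ hW, h⟩⟩
  by_cases h : (v + (r + m) * n).Coprime (primorial D)
  · rw [if_pos (hmem.2 h), if_pos h, card_singleton]
  · rw [if_neg (fun h' => h (hmem.1 h')), if_neg h, card_empty]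


theorem sum_wv (D n m : ℕ) :
    ∑ v ∈ range (primorial D), wv D n v m = primorial D * PoolQ4.wt D n m := by
  unfold wv
  simp_rw [card_filter]
  rw [sum_comm]
  have h1 : ∀ ρ ∈ range (primorial D), ∑ v ∈ range (primorial D),
      (if (v + ρ * n).Coprime (primorial D) ∧ (v + (ρ + m) * n).Coprime (primorial D)
        then 1 else 0) = PoolQ4.wt D n m := by
    intro ρ _
    rw [← card_filter, PoolQ4.localW]
    congr 1
    rw [Nat.dist_comm, Nat.dist_eq_sub_of_le_right (Nat.le_add_right _ _)]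
    omega
  rw [sum_congr rfl h1, sum_const, card_range, smul_eq_mul]

theorem sum_wv_le (D n v M : ℕ) :
    ∑ m ∈ Icc 1 M, wv D n v m ≤ (M / primorial D + 1) * #(Rv D n v) ^ 2 := by
  have hW : 0 < primorial D := primorial_pos D
  have hper : Function.Periodic (fun x => (v + x * n).Coprime (primorial D)) (primorial D) :=
    sumv_per D n v
  have h0 : ∀ ρ, #{m ∈ Icc 1 M | (v + (ρ + m) * n).Coprime (primorial D)} ≤
      (M / primorial D + 1) * #(Rv D n v) := by
    intro ρ
    have hper2 : Function.Periodic (fun m => (v + (ρ + m) * n).Coprime (primorial D))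
        (primorial D) := by
      intro m
      have := hper (ρ + m)
      simp only at this ⊢
      rwa [add_assoc] at this
    refine (sumv_count hW hper2 M).trans (le_of_eq ?_)
    congr 1
    have h2 := Nat.filter_Ico_card_eq_of_periodic ρ (primorial D)
      (fun x => (v + x * n).Coprime (primorial D)) hper
    have h3 : #(Rv D n v) = Nat.count (fun x => (v + x * n).Coprime (primorial D))
        (primorial D) := by
      rw [Nat.count_eq_card_filter_range]
      rfl
    rw [h3, ← h2, Nat.count_eq_card_filter_range]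
    refine card_bij' (fun x _ => ρ + x) (fun x _ => x - ρ) ?_ ?_ ?_ ?_
    · intro x hx
      simp only [mem_filter, mem_range, mem_Ico] at hx ⊢
      exact ⟨⟨by omega, by omega⟩, hx.2⟩
    · intro x hx
      simp only [mem_filter, mem_range, mem_Ico] at hx ⊢
      refine ⟨by omega, ?_⟩
      rw [show ρ + (x - ρ) = x by omega]
      exact hx.2
    · intro x hx; simp
    · intro x hx
      simp only [mem_filter, mem_range, mem_Ico] at hx
      show ρ + (x - ρ) = x
      omega
  have h1 : ∀ m, wv D n v m = ∑ ρ ∈ Rv D n v,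
      if (v + (ρ + m) * n).Coprime (primorial D) then 1 else 0 := by
    intro m
    unfold wv Rv
    rw [← card_filter, filter_filter]
  simp_rw [h1]
  rw [sum_comm]
  calc ∑ ρ ∈ Rv D n v, ∑ m ∈ Icc 1 M, (if (v + (ρ + m) * n).Coprime (primorial D) then 1 else 0)
      ≤ ∑ ρ ∈ Rv D n v, (M / primorial D + 1) * #(Rv D n v) := by
        refine sum_le_sum fun ρ _ => ?_
        rw [← card_filter]
        exact h0 ρ
    _ = (M / primorial D + 1) * #(Rv D n v) ^ 2 := by
        rw [sum_const, smul_eq_mul]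
        ring

theorem sum_qc (D n v M : ℕ) (P : ℕ → Prop) [DecidablePred P] :
    ∑ r ∈ Rv D n v, ∑ s ∈ Rv D n v, qc (primorial D) M P r s =
      2 * ∑ m ∈ (Icc 1 M).filter P, wv D n v m := by
  classical
  -- number of pairs of levels with difference `t`
  have hN : ∀ m : ℕ, ∑ r ∈ Rv D n v, ∑ s ∈ Rv D n v,
      (if ((primorial D : ℕ) : ℤ) ∣ (m : ℤ) - ((s : ℤ) - r) then 1 else 0) = wv D n v m := by
    intro m
    have h1 : wv D n v m = ∑ ρ ∈ Rv D n v,
        if (v + (ρ + m) * n).Coprime (primorial D) then 1 else 0 := by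
      unfold wv Rv
      rw [← card_filter, filter_filter]
    rw [h1]
    exact sum_congr rfl fun r _ => sumv_one D n v m r
  have hN' : ∀ m : ℕ, ∑ r ∈ Rv D n v, ∑ s ∈ Rv D n v,
      (if ((primorial D : ℕ) : ℤ) ∣ -(m : ℤ) - ((s : ℤ) - r) then 1 else 0) = wv D n v m := by
    intro m
    rw [sum_comm, ← hN m]
    refine sum_congr rfl fun r _ => sum_congr rfl fun s _ => ?_
    have : ((primorial D : ℕ) : ℤ) ∣ -(m : ℤ) - ((r : ℤ) - s) ↔
        ((primorial D : ℕ) : ℤ) ∣ (m : ℤ) - ((s : ℤ) - r) := by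
      rw [← dvd_neg]
      ring_nf
    simp only [this]
  have hq : ∀ r s, qc (primorial D) M P r s = ∑ t ∈ (Icc (-(M : ℤ)) M).filter
      (fun t => t ≠ 0 ∧ P t.natAbs),
      if ((primorial D : ℕ) : ℤ) ∣ t - ((s : ℤ) - r) then 1 else 0 := by
    intro r s
    unfold qc
    rw [← card_filter, filter_filter]
  simp_rw [hq]
  have h2 : ∑ r ∈ Rv D n v, ∑ s ∈ Rv D n v, ∑ t ∈ (Icc (-(M : ℤ)) M).filter
      (fun t => t ≠ 0 ∧ P t.natAbs),
      (if ((primorial D : ℕ) : ℤ) ∣ t - ((s : ℤ) - r) then 1 else 0) =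
      ∑ t ∈ (Icc (-(M : ℤ)) M).filter (fun t => t ≠ 0 ∧ P t.natAbs), ∑ r ∈ Rv D n v,
      ∑ s ∈ Rv D n v, (if ((primorial D : ℕ) : ℤ) ∣ t - ((s : ℤ) - r) then 1 else 0) := by
    rw [sum_comm]
    have : ∀ r ∈ Rv D n v, ∑ s ∈ Rv D n v, ∑ t ∈ (Icc (-(M : ℤ)) M).filter
        (fun t => t ≠ 0 ∧ P t.natAbs),
        (if ((primorial D : ℕ) : ℤ) ∣ t - ((s : ℤ) - r) then 1 else 0) =
        ∑ t ∈ (Icc (-(M : ℤ)) M).filter (fun t => t ≠ 0 ∧ P t.natAbs), ∑ s ∈ Rv D n v,
        (if ((primorial D : ℕ) : ℤ) ∣ t - ((s : ℤ) - r) then 1 else 0) := fun r _ => sum_comm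
    rw [sum_comm, sum_congr rfl this, sum_comm]
  rw [h2]
  have h3 : (Icc (-(M : ℤ)) M).filter (fun t => t ≠ 0 ∧ P t.natAbs) =
      ((Icc 1 M).filter P).image (fun m : ℕ => (m : ℤ)) ∪
      ((Icc 1 M).filter P).image (fun m : ℕ => -(m : ℤ)) := by
    ext t
    simp only [mem_filter, mem_Icc, mem_union, mem_image]
    constructor
    · rintro ⟨⟨h4, h5⟩, h6, h7⟩
      rcases lt_or_gt_of_ne h6 with h | h
      · exact Or.inr ⟨t.natAbs, ⟨⟨by omega, by omega⟩, h7⟩, by omega⟩
      · exact Or.inl ⟨t.natAbs, ⟨⟨by omega, by omega⟩, h7⟩, by omega⟩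
    · rintro (⟨m, ⟨⟨h4, h5⟩, h6⟩, rfl⟩ | ⟨m, ⟨⟨h4, h5⟩, h6⟩, rfl⟩)
      · refine ⟨⟨by omega, by omega⟩, by omega, ?_⟩
        simpa using h6
      · refine ⟨⟨by omega, by omega⟩, by omega, ?_⟩
        simpa using h6
  rw [h3, sum_union, sum_image, sum_image, two_mul]
  · congr 1
    · exact sum_congr rfl fun m _ => hN m
    · exact sum_congr rfl fun m _ => hN' m
  · intro a _ b _ h
    simp only at h
    omega
  · intro a _ b _ h
    simp only at h
    omega
  · rw [disjoint_left]
    intro t h4 h5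
    simp only [mem_image, mem_filter, mem_Icc] at h4 h5
    obtain ⟨a, ⟨⟨h6, -⟩, -⟩, rfl⟩ := h4
    obtain ⟨b, ⟨⟨h7, -⟩, -⟩, h8⟩ := h5
    omega

theorem qc_symm (W M : ℕ) (P : ℕ → Prop) [DecidablePred P] (r s : ℕ) :
    qc W M P r s = qc W M P s r := by
  unfold qc
  refine card_bij' (fun t _ => -t) (fun t _ => -t) ?_ ?_ (fun t _ => neg_neg t)
    (fun t _ => neg_neg t)
  all_goals
    intro t ht
    simp only [mem_filter, mem_Icc, Int.natAbs_neg, ne_eq, neg_eq_zero] at ht ⊢
    refine ⟨⟨by omega, by omega⟩, ht.2.1, ?_⟩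
    obtain ⟨a, ha⟩ := ht.2.2
    exact ⟨-a, by linear_combination (-1) * ha⟩

theorem qc_le (W M : ℕ) (hW : 1 ≤ W) (P : ℕ → Prop) [DecidablePred P] (r s : ℕ) :
    qc W M P r s ≤ 2 * (M / W + 1) := by
  have hW' : (0 : ℤ) < W := by exact_mod_cast hW
  have hM : (M : ℤ) < W * (((M / W : ℕ) : ℤ) + 1) := by
    exact_mod_cast Nat.lt_mul_div_succ M hW
  unfold qc
  have h1 : #(Icc (-((M / W : ℕ) : ℤ) - 1) ((M / W : ℕ) : ℤ)) = 2 * (M / W + 1) := by
    rw [Int.card_Icc]
    omega
  rw [← h1]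
  refine card_le_card_of_injOn (fun t => t / (W : ℤ)) ?_ ?_
  · intro t ht
    simp only [coe_filter, mem_Icc, Set.mem_ofPred_eq] at ht
    simp only [coe_Icc, Set.mem_Icc]
    constructor
    · rw [Int.le_ediv_iff_mul_le hW']
      nlinarith [ht.1.1]
    · have h2 : t / (W : ℤ) < ((M / W : ℕ) : ℤ) + 1 := by
        rw [Int.ediv_lt_iff_lt_mul hW']
        nlinarith [ht.1.2]
      omega
  · intro t ht t' ht' heq
    simp only [coe_filter, mem_Icc, Set.mem_ofPred_eq] at ht ht'
    obtain ⟨a, ha⟩ := ht.2.2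
    obtain ⟨b, hb⟩ := ht'.2.2
    have h2 : t = t' + W * (a - b) := by
      have : t - t' = W * a - W * b := by rw [← ha, ← hb]; ring
      linarith
    simp only at heq
    rw [h2, Int.add_mul_ediv_left _ _ hW'.ne'] at heq
    have h3 : a - b = 0 := by omega
    rw [h2, h3, mul_zero, add_zero]

end PoolFlat
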