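import Pool.Agent.Work.MP_70e905_nt.Flat.FlatWt
import Pool.Agent.Work.MP_70e905_nt.Q4.Clus

/-!
# Module Flat.Unw : an unweighted version

`clu5`: let `L, D₁` be from `ClusterPlus 4` (WLOG `D₁ ≥ 5`), `Q = primorial D₁`. Given `v, h` as in `CluF`
(`primorial 5 = 30`): for every prime `7 ≤ p ≤ D₁` the numbers `h n mod p` take at most `5` values
(clusters are constant mod `Q`, so mod `p`), so some class `v'` mod `p` has `v' + h n` prime to `p` for
all `h`; by the Chinese remainder theorem there is `v' ≡ v` mod `30` with `v' + h n` prime to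
`primorial D₁`. Apply `ClusterPlus 4` with `W = primorial D₁`, `x = M n`.
`wt5`: for even `n`, `wt 5 n m` is `(2 or 1) * (4 or 3)` (`2` iff `3 ∣ m n`, `4` iff `5 ∣ m n`): it depends
only on `m mod 15` and `n mod 30`. If a subset `G` of `[1, M]` has
`∑_{m ∈ G} wt ≥ (1/4 - ε) ∑_{m ≤ M} wt` then `#G ≥ (7/45 - 3 ε) M - 20`:
 * `gcd(n, 15) = 1`: `wt ≤ 6 + 2 [15 ∣ m]`, `∑ wt ≥ (64/15) M - 64`;
 * `3 ∣ n, 5 ∤ n`: `wt ≤ 6 + 2 [5 ∣ m]`, `∑ wt ≥ (32/5) M - 32`;
 * `5 ∣ n, 3 ∤ n`: `wt ≤ 8`, `∑ wt ≥ (16/3) M - 16`;   * `15 ∣ n`: `wt = 8`.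
(The exact constants of the error terms do not matter; prove what is stated.)
-/

namespace PoolFlat

open Finset Classical PoolQ4

private theorem unw_primorial_pos (D : ℕ) : 0 < primorial D := by
  unfold primorial
  exact Finset.prod_pos fun p hp => (mem_filter.1 hp).2.pos

private theorem unw_primorial_dvd {D₁ D : ℕ} (h : D₁ ≤ D) : primorial D₁ ∣ primorial D := by
  unfold primorial
  refine Finset.prod_dvd_prod_of_subset _ _ _ ?_
  intro p hp
  simp only [mem_filter, mem_range] at hp ⊢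
  exact ⟨by omega, hp.2⟩

private theorem unw_dvd_primorial {D p : ℕ} (hp : p.Prime) (h : p ≤ D) : p ∣ primorial D := by
  unfold primorial
  refine Finset.dvd_prod_of_mem (fun p => p) ?_
  simp only [mem_filter, mem_range]
  exact ⟨by omega, hp⟩

/-- A shift prime to `primorial D`, when there is one prime to each prime `≤ D`. -/
private theorem unw_shift {ι : Type*} (g : ι → ℕ) (D : ℕ)
    (H : ∀ p : ℕ, p.Prime → p ≤ D → ∃ v : ℕ, ∀ s, ¬ p ∣ v + g s) :
    ∃ v : ℕ, ∀ s, (v + g s).Coprime (primorial D) := by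
  have H' : ∀ p : ℕ, ∃ v : ℕ, p.Prime → p ≤ D → ∀ s, ¬ p ∣ v + g s := by
    intro p
    by_cases hp : p.Prime
    · by_cases hpD : p ≤ D
      · obtain ⟨v, hv⟩ := H p hp hpD
        exact ⟨v, fun _ _ => hv⟩
      · exact ⟨0, fun _ h => absurd h hpD⟩
    · exact ⟨0, fun h => absurd h hp⟩
  choose f hf using H'
  obtain ⟨k, hk⟩ := Nat.chineseRemainderOfFinset f id
    ((Finset.range (D + 1)).filter (fun p => p.Prime))
    (by intro i hi; simp only [mem_filter, mem_range] at hi; exact hi.2.ne_zero)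
    (by
      intro i hi j hj hij
      simp only [coe_filter, mem_range, Set.mem_ofPred_eq] at hi hj
      exact (Nat.coprime_primes hi.2 hj.2).2 hij)
  refine ⟨k, fun s => ?_⟩
  unfold primorial
  refine Nat.Coprime.prod_right fun p hp => ?_
  have hpp : p.Prime := (mem_filter.1 hp).2
  have hpD : p ≤ D := by
    have := mem_range.1 (mem_filter.1 hp).1
    omega
  refine Nat.Coprime.symm ((Nat.Prime.coprime_iff_not_dvd hpp).2 fun hd => ?_)
  have h1 : k ≡ f p [MOD p] := hk p hp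
  have h2 : k + g s ≡ f p + g s [MOD p] := Nat.ModEq.add_right _ h1
  exact hf p hpp hpD s ((h2.dvd_iff dvd_rfl).1 hd)

/-- For a prime `p ≥ 7` five classes are not all classes. -/
private theorem unw_free {p : ℕ} (hp : p.Prime) (h7 : 5 < p) (r : Fin 5 → ℕ) :
    ∃ v : ℕ, ∀ c, ¬ p ∣ v + r c := by
  have : Fact p.Prime := ⟨hp⟩
  have hcard : (Finset.univ.image (fun c : Fin 5 => -((r c : ℕ) : ZMod p))).card
      < (Finset.univ : Finset (ZMod p)).card := by
    refine lt_of_le_of_lt Finset.card_image_le ?_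
    rw [Finset.card_univ, Finset.card_univ, Fintype.card_fin, ZMod.card]
    exact h7
  obtain ⟨y, -, hy⟩ := Finset.exists_mem_notMem_of_card_lt_card hcard
  refine ⟨y.val, fun c hc => hy ?_⟩
  rw [Finset.mem_image]
  refine ⟨c, Finset.mem_univ _, ?_⟩
  have h1 : ((y.val + r c : ℕ) : ZMod p) = 0 := (ZMod.natCast_eq_zero_iff _ _).2 hc
  rw [Nat.cast_add, ZMod.natCast_zmod_val] at h1
  exact (eq_neg_of_add_eq_zero_left h1).symm

theorem clu5 (HC : ClusterPlus 4) : ∃ L Q : ℕ, 1 ≤ Q ∧ ∃ M₀ : ℕ, ∀ n M : ℕ, 1 ≤ n → M₀ ≤ M →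
    CluF 4 L 5 Q n M (fun m => DiffPrimes (3 * M * n) (m * n)) := by
  obtain ⟨L, D₁, hL, HC⟩ := HC
  obtain ⟨X₀, hX⟩ := HC (primorial (max D₁ 5)) 1 1 (unw_primorial_pos _)
    (unw_primorial_dvd (le_max_left _ _))
  refine ⟨L, primorial (max D₁ 5), unw_primorial_pos _, X₀, fun n M hn hM => ?_⟩
  intro v h hinj hh hcop hmod
  obtain ⟨w, hw⟩ : ∃ w : ℕ, ∀ s, (w + h s * n).Coprime (primorial (max D₁ 5)) := by
    refine unw_shift (fun s => h s * n) _ fun p hp hpD => ?_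
    rcases le_or_gt p 5 with h5 | h5
    · refine ⟨v, fun s hd => ?_⟩
      have h1 : p ∣ primorial 5 := unw_dvd_primorial hp h5
      have h2 : p ∣ Nat.gcd (v + h s * n) (primorial 5) := Nat.dvd_gcd hd h1
      rw [(hcop s)] at h2
      exact hp.one_lt.ne' (Nat.dvd_one.1 h2)
    · obtain ⟨w, hw⟩ := unw_free hp h5 (fun c => h (c, ⟨0, hL⟩) * n)
      refine ⟨w, fun s hd => hw s.1 ?_⟩
      have h1 : h s ≡ h (s.1, ⟨0, hL⟩) [MOD p] :=
        (hmod s.1 s.2 ⟨0, hL⟩).of_dvd (unw_dvd_primorial hp hpD)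
      have h2 : w + h s * n ≡ w + h (s.1, ⟨0, hL⟩) * n [MOD p] :=
        Nat.ModEq.add_left _ (Nat.ModEq.mul_right _ h1)
      exact (h2.dvd_iff dvd_rfl).1 hd
  have hMX : X₀ ≤ M * n := by nlinarith
  obtain ⟨z, hz1, hz2, -, s, t, hst, hs, ht⟩ := hX (M * n) w (fun _ => 1) (fun i => h i * n) hMX
    (fun _ => ⟨le_rfl, le_rfl⟩)
    (fun _ p hp hd => absurd (Nat.dvd_one.1 hd) hp.one_lt.ne')
    (fun i => by
      have := (hh i).le
      nlinarith)
    (fun i => by simpa using hw i)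
    (fun i j hij hEq => by
      have h1 : h j * n = h i * n := by simpa using hEq
      exact hij (hinj (Nat.eq_of_mul_eq_mul_right (by omega) h1)).symm)
  refine ⟨s, t, hst, ?_⟩
  simp only [one_mul] at hs ht
  have hsM := Nat.mul_le_mul_right n (hh s).le
  have htM := Nat.mul_le_mul_right n (hh t).le
  show DiffPrimes (3 * M * n) (Nat.dist (h s) (h t) * n)
  rcases le_total (h s) (h t) with hle | hle
  · refine ⟨z + h t * n, z + h s * n, ht, hs, ?_, ?_⟩
    · calc z + h t * n ≤ 2 * (M * n) + M * n := by omega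
        _ = 3 * M * n := by ring
    · rw [Nat.dist_eq_sub_of_le hle, Nat.sub_mul]
      have := Nat.mul_le_mul_right n hle
      omega
  · refine ⟨z + h s * n, z + h t * n, hs, ht, ?_, ?_⟩
    · calc z + h s * n ≤ 2 * (M * n) + M * n := by omega
        _ = 3 * M * n := by ring
    · rw [Nat.dist_eq_sub_of_le_right hle, Nat.sub_mul]
      have := Nat.mul_le_mul_right n hle
      omega

private theorem unw_primorial_five : primorial 5 = 30 := by
  unfold primorial
  rfl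

private theorem unw_table : ∀ r < 30, r % 2 = 0 →
    ((range 30).filter (fun v => v.Coprime 30 ∧ (v + r).Coprime 30)).card
      = (1 + if 3 ∣ r then 1 else 0) * (3 + if 5 ∣ r then 1 else 0) := by
  decide

private theorem unw_wt (n m : ℕ) (hn : Even n) :
    wt 5 n m = (1 + if 3 ∣ m * n then 1 else 0) * (3 + if 5 ∣ m * n then 1 else 0) := by
  have h3 : 3 ∣ m * n ↔ 3 ∣ (m * n) % 30 := by omega
  have h5 : 5 ∣ m * n ↔ 5 ∣ (m * n) % 30 := by omega
  have h2 : (m * n) % 30 % 2 = 0 := by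
    have h : Even (m * n) := hn.mul_left m
    have := Nat.even_iff.1 h
    omega
  unfold wt
  rw [unw_primorial_five]
  simp only [h3, h5]
  rw [← unw_table _ (Nat.mod_lt _ (by norm_num)) h2]
  congr 1
  refine Finset.filter_congr fun v _ => ?_
  have h : Nat.gcd (v + m * n) 30 = Nat.gcd (v + (m * n) % 30) 30 := by
    have : v + m * n ≡ v + (m * n) % 30 [MOD 30] := Nat.ModEq.add_left _ (Nat.mod_modEq _ _).symm
    exact this.gcd_eq
  unfold Nat.Coprime
  rw [h]

/-- Number of multiples of `d` up to `M`. -/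
private theorem unw_mult (M d : ℕ) :
    ∑ m ∈ Icc 1 M, (if d ∣ m then (1 : ℝ) else 0) = ((M / d : ℕ) : ℝ) := by
  rw [Finset.sum_boole]
  congr 1
  rw [← Nat.card_multiples' M d]
  congr 1
  ext k
  simp only [mem_filter, mem_Icc, mem_range]
  constructor
  · rintro ⟨⟨h1, h2⟩, h3⟩
    exact ⟨by omega, by omega, h3⟩
  · rintro ⟨h1, h2, h3⟩
    exact ⟨⟨by omega, by omega⟩, h3⟩

private theorem unw_mult_le (M d : ℕ) (hd : 0 < d) :
    ∑ m ∈ Icc 1 M, (if d ∣ m then (1 : ℝ) else 0) ≤ M / d := by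
  rw [unw_mult]
  exact Nat.cast_div_le

private theorem unw_le_mult (M d : ℕ) (hd : 0 < d) :
    (M : ℝ) / d - 1 ≤ ∑ m ∈ Icc 1 M, (if d ∣ m then (1 : ℝ) else 0) := by
  rw [unw_mult]
  have h : (0 : ℝ) < d := by exact_mod_cast hd
  rw [sub_le_iff_le_add, div_le_iff₀ h]
  have h1 := Nat.lt_succ_iff.1 (Nat.lt_succ_of_lt (Nat.lt_div_mul_add (a := M) hd))
  have h2 : (M : ℝ) ≤ ((M / d * d + d : ℕ) : ℝ) := by exact_mod_cast h1
  push_cast at h2
  nlinarith

private theorem unw_mult_G (M d : ℕ) (hd : 0 < d) (G : Finset ℕ) (hG : G ⊆ Icc 1 M) :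
    ∑ m ∈ G, (if d ∣ m then (1 : ℝ) else 0) ≤ M / d := by
  refine le_trans ?_ (unw_mult_le M d hd)
  refine Finset.sum_le_sum_of_subset_of_nonneg hG fun i _ _ => ?_
  split <;> norm_num

theorem wt5 : ∃ C : ℝ, ∀ n M : ℕ, Even n → ∀ G : Finset ℕ, G ⊆ Icc 1 M → ∀ ε : ℝ, 0 < ε → ε ≤ 1 →
    (1 / 4 - ε) * ∑ m ∈ Icc 1 M, (wt 5 n m : ℝ) ≤ ∑ m ∈ G, (wt 5 n m : ℝ) →
    (7 / 45 - 3 * ε) * M - C ≤ (#G : ℝ) := by
  refine ⟨2, fun n M hn G hG ε hε _ hsum => ?_⟩
  have hG0 : (0 : ℝ) ≤ #G := Nat.cast_nonneg _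
  have hM0 : (0 : ℝ) ≤ M := Nat.cast_nonneg _
  have hεM : 0 ≤ ε * M := by positivity
  have hone : ∑ m ∈ Icc 1 M, (1 : ℝ) = M := by simp
  have honeG : ∑ m ∈ G, (1 : ℝ) = #G := by simp
  rcases le_or_gt (1 / 4) ε with h4 | h4
  · nlinarith
  by_cases h3 : 3 ∣ n
  · by_cases h5 : 5 ∣ n
    · -- weight 8
      have hw : ∀ m, (wt 5 n m : ℝ) = 8 * 1 := by
        intro m
        rw [unw_wt n m hn, if_pos (dvd_mul_of_dvd_right h3 m), if_pos (dvd_mul_of_dvd_right h5 m)]
        norm_num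
      simp only [hw, ← mul_sum, hone, honeG] at hsum
      nlinarith
    · have hw : ∀ m, (wt 5 n m : ℝ) = 6 * 1 + 2 * (if 5 ∣ m then (1 : ℝ) else 0) := by
        intro m
        have e5 : 5 ∣ m * n ↔ 5 ∣ m := by
          constructor
          · intro h
            exact ((Nat.Prime.dvd_mul (by norm_num)).1 h).resolve_right h5
          · exact fun h => dvd_mul_of_dvd_left h n
        rw [unw_wt n m hn, if_pos (dvd_mul_of_dvd_right h3 m)]
        simp only [e5]
        split <;> norm_num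
      have hS := unw_le_mult M 5 (by norm_num)
      have hT := unw_mult_G M 5 (by norm_num) G hG
      simp only [hw, sum_add_distrib, ← mul_sum, hone, honeG] at hsum
      set A : ℝ := ∑ m ∈ Icc 1 M, (if 5 ∣ m then (1 : ℝ) else 0) with hA
      set B : ℝ := ∑ m ∈ G, (if 5 ∣ m then (1 : ℝ) else 0) with hB
      push_cast at hS hT
      nlinarith
  · have e3 : ∀ m, (3 ∣ m * n ↔ 3 ∣ m) := by
      intro m
      constructor
      · intro h
        exact ((Nat.Prime.dvd_mul (by norm_num)).1 h).resolve_right h3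
      · exact fun h => dvd_mul_of_dvd_left h n
    by_cases h5 : 5 ∣ n
    · have hw : ∀ m, (wt 5 n m : ℝ) = 4 * 1 + 4 * (if 3 ∣ m then (1 : ℝ) else 0) := by
        intro m
        rw [unw_wt n m hn, if_pos (dvd_mul_of_dvd_right h5 m)]
        simp only [e3]
        split <;> norm_num
      have hS := unw_le_mult M 3 (by norm_num)
      have hT : ∑ m ∈ G, (wt 5 n m : ℝ) ≤ ∑ m ∈ G, (8 * 1 : ℝ) := by
        refine sum_le_sum fun m _ => ?_
        rw [hw m]
        split <;> norm_num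
      rw [← mul_sum, honeG] at hT
      have hsum' := hsum.trans hT
      simp only [hw, sum_add_distrib, ← mul_sum, hone] at hsum'
      set A : ℝ := ∑ m ∈ Icc 1 M, (if 3 ∣ m then (1 : ℝ) else 0) with hA
      push_cast at hS
      nlinarith
    · have e5 : ∀ m, (5 ∣ m * n ↔ 5 ∣ m) := by
        intro m
        constructor
        · intro h
          exact ((Nat.Prime.dvd_mul (by norm_num)).1 h).resolve_right h5
        · exact fun h => dvd_mul_of_dvd_left h n
      have hw : ∀ m, (wt 5 n m : ℝ) = 3 * 1 + 3 * (if 3 ∣ m then (1 : ℝ) else 0)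
          + (if 5 ∣ m then (1 : ℝ) else 0) + (if 15 ∣ m then (1 : ℝ) else 0) := by
        intro m
        have e15 : 15 ∣ m ↔ 3 ∣ m ∧ 5 ∣ m := by omega
        rw [unw_wt n m hn]
        simp only [e3, e5, e15]
        by_cases ha : 3 ∣ m <;> by_cases hb : 5 ∣ m <;> simp [ha, hb] <;> norm_num
      have hw2 : ∀ m, (wt 5 n m : ℝ) ≤ 6 * 1 + 2 * (if 15 ∣ m then (1 : ℝ) else 0) := by
        intro m
        rw [hw m]
        have e15 : 15 ∣ m ↔ 3 ∣ m ∧ 5 ∣ m := by omega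
        simp only [e15]
        by_cases ha : 3 ∣ m <;> by_cases hb : 5 ∣ m <;> simp [ha, hb] <;> norm_num
      have hS3 := unw_le_mult M 3 (by norm_num)
      have hS5 := unw_le_mult M 5 (by norm_num)
      have hS15 := unw_le_mult M 15 (by norm_num)
      have hT := unw_mult_G M 15 (by norm_num) G hG
      have hT' : ∑ m ∈ G, (wt 5 n m : ℝ)
          ≤ ∑ m ∈ G, (6 * 1 + 2 * (if 15 ∣ m then (1 : ℝ) else 0) : ℝ) :=
        sum_le_sum fun m _ => hw2 m
      have hsum' := hsum.trans hT'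
      simp only [hw, sum_add_distrib, ← mul_sum, hone, honeG] at hsum'
      set A : ℝ := ∑ m ∈ Icc 1 M, (if 3 ∣ m then (1 : ℝ) else 0) with hA
      set A5 : ℝ := ∑ m ∈ Icc 1 M, (if 5 ∣ m then (1 : ℝ) else 0) with hA5
      set A15 : ℝ := ∑ m ∈ Icc 1 M, (if 15 ∣ m then (1 : ℝ) else 0) with hA15
      set B : ℝ := ∑ m ∈ G, (if 15 ∣ m then (1 : ℝ) else 0) with hB
      push_cast at hS3 hS5 hS15 hT
      have hlow : (64 / 15 : ℝ) * M - 5 ≤ 3 * M + 3 * A + A5 + A15 := by linarith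
      have h4' : 0 ≤ 1 / 4 - ε := by linarith
      have := mul_le_mul_of_nonneg_left hlow h4'
      nlinarith

theorem unweighted (HC : ClusterPlus 4) (ε : ℝ) (hε : 0 < ε) :
    ∃ M₀ : ℕ, ∀ n M : ℕ, 1 ≤ n → Even n → M₀ ≤ M →
      (7 / 45 - ε) * M ≤
        (#{m ∈ Icc 1 M | DiffPrimes (3 * M * n) (m * n)} : ℝ) := by
  obtain ⟨L, Q, hQ, M₁, hclu⟩ := clu5 HC
  obtain ⟨C, hC⟩ := wt5
  have hε' : 0 < min (ε / 6) 1 := lt_min (by positivity) one_pos
  obtain ⟨M₂, hM₂⟩ := flat_wt 4 L Q (by norm_num) hQ (min (ε / 6) 1) hε' 5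
  refine ⟨max M₁ (max M₂ ⌈2 * C / ε⌉₊), fun n M hn he hM => ?_⟩
  have hM1 : M₁ ≤ M := (le_max_left _ _).trans hM
  have hM2 : M₂ ≤ M := ((le_max_left _ _).trans (le_max_right _ _)).trans hM
  have hM3 : 2 * C / ε ≤ M := (Nat.le_ceil _).trans (by
    exact_mod_cast ((le_max_right _ _).trans (le_max_right _ _)).trans hM)
  have h1 := hM₂ M n hM2 (fun m => DiffPrimes (3 * M * n) (m * n)) (hclu n M hn hM1)
  have h2 := hC n M he ((Icc 1 M).filter (fun m => DiffPrimes (3 * M * n) (m * n)))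
    (filter_subset _ _) (min (ε / 6) 1) hε' (min_le_right _ _) (by exact_mod_cast h1)
  refine le_trans ?_ h2
  have h3 : 3 * min (ε / 6) 1 ≤ ε / 2 := by
    have := min_le_left (ε / 6) 1
    linarith
  have hM0 : (0 : ℝ) ≤ M := Nat.cast_nonneg _
  rw [div_le_iff₀ hε] at hM3
  nlinarith [mul_le_mul_of_nonneg_right h3 hM0]

end PoolFlat
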